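import Pool.Agent.MP_1e5511_al.Defs

set_option autoImplicit false

namespace Pool.Agent.MP_1e5511_al

/-- relator of a square `g₁ g₂ = g₃ g₄` -/
def sqRelator {G I : Type} (g₁ g₂ g₃ g₄ : I → G) (i : I) : FreeGroup G :=
  FreeGroup.of (g₁ i) * FreeGroup.of (g₂ i) * (FreeGroup.of (g₃ i) * FreeGroup.of (g₄ i))⁻¹

/-- semigroup presentation with an indexed family of relations -/
structure Pres where
  L : Type
  C : Type
  side : C → Bool → List L
  ne : ∀ c b, side c b ≠ []

namespace Pres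

variable (P : Pres)

/-- directed step -/
@[ext] structure DS where
  a : List P.L
  c : P.C
  e : Bool
  b : List P.L

abbrev Gen : Type := List P.L × P.C × List P.L

abbrev Sq : Type := List P.L × P.C × List P.L × P.C × List P.L

def g₁ (q : P.Sq) : P.Gen := (q.1, q.2.1, q.2.2.1 ++ P.side q.2.2.2.1 false ++ q.2.2.2.2)
def g₂ (q : P.Sq) : P.Gen := (q.1 ++ P.side q.2.1 true ++ q.2.2.1, q.2.2.2.1, q.2.2.2.2)
def g₃ (q : P.Sq) : P.Gen := (q.1 ++ P.side q.2.1 false ++ q.2.2.1, q.2.2.2.1, q.2.2.2.2)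
def g₄ (q : P.Sq) : P.Gen := (q.1, q.2.1, q.2.2.1 ++ P.side q.2.2.2.1 true ++ q.2.2.2.2)

/-- the universal group of the Squier groupoid -/
abbrev U : Type := PresentedGroup (Set.range (sqRelator P.g₁ P.g₂ P.g₃ P.g₄))

def gen (x : P.Gen) : P.U := PresentedGroup.of x

variable {P}

def DS.src (t : P.DS) : List P.L := t.a ++ P.side t.c t.e ++ t.b
def DS.tgt (t : P.DS) : List P.L := t.a ++ P.side t.c (!t.e) ++ t.b
def DS.inv (t : P.DS) : P.DS := ⟨t.a, t.c, !t.e, t.b⟩
def DS.ev (t : P.DS) : P.U := cond t.e (P.gen (t.a, t.c, t.b))⁻¹ (P.gen (t.a, t.c, t.b))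

@[simp] theorem DS.inv_inv (t : P.DS) : t.inv.inv = t := by cases t; simp [DS.inv]
@[simp] theorem DS.src_inv (t : P.DS) : t.inv.src = t.tgt := rfl
@[simp] theorem DS.tgt_inv (t : P.DS) : t.inv.tgt = t.src := by simp [DS.inv, DS.tgt, DS.src]
@[simp] theorem DS.ev_inv (t : P.DS) : t.inv.ev = t.ev⁻¹ := by
  rcases t with ⟨a, c, _ | _, b⟩ <;> simp [DS.inv, DS.ev]
@[simp] theorem DS.inv_a (t : P.DS) : t.inv.a = t.a := rfl
@[simp] theorem DS.inv_b (t : P.DS) : t.inv.b = t.b := rfl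
@[simp] theorem DS.inv_c (t : P.DS) : t.inv.c = t.c := rfl
@[simp] theorem DS.inv_e (t : P.DS) : t.inv.e = !t.e := rfl

theorem gen_sq (a : List P.L) (c : P.C) (m : List P.L) (c' : P.C) (b : List P.L) :
    P.gen (a, c, m ++ P.side c' false ++ b) * P.gen (a ++ P.side c true ++ m, c', b) =
      P.gen (a ++ P.side c false ++ m, c', b) * P.gen (a, c, m ++ P.side c' true ++ b) := by
  have h : PresentedGroup.mk (Set.range (sqRelator P.g₁ P.g₂ P.g₃ P.g₄))
      (sqRelator P.g₁ P.g₂ P.g₃ P.g₄ (a, c, m, c', b)) = 1 :=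
    PresentedGroup.one_of_mem ⟨_, rfl⟩
  simp only [sqRelator, map_mul, map_inv] at h
  exact mul_inv_eq_one.1 h

/-- universal property -/
def lift {H : Type*} [Group H] (f : P.Gen → H)
    (hf : ∀ a c m c' b, f (a, c, m ++ P.side c' false ++ b) * f (a ++ P.side c true ++ m, c', b) =
      f (a ++ P.side c false ++ m, c', b) * f (a, c, m ++ P.side c' true ++ b)) : P.U →* H :=
  PresentedGroup.toGroup (f := f) (by
    rintro _ ⟨⟨a, c, m, c', b⟩, rfl⟩
    simp only [sqRelator, map_mul, map_inv, FreeGroup.lift_apply_of]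
    exact mul_inv_eq_one.2 (hf a c m c' b))

@[simp] theorem lift_gen {H : Type*} [Group H] (f : P.Gen → H) (hf) (x : P.Gen) :
    lift f hf (P.gen x) = f x := PresentedGroup.toGroup.of _

theorem hom_ext {H : Type*} [Group H] {f g : P.U →* H} (h : ∀ x, f (P.gen x) = g (P.gen x)) :
    f = g := PresentedGroup.ext h

/-- `Par s t t' s'`: `s`, `t` are disjoint steps from one word, `t'` is `t` after `s` and `s'` is
`s` after `t` -/
inductive Par : P.DS → P.DS → P.DS → P.DS → Prop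
  | left (a c e m c' e' b) : Par ⟨a, c, e, m ++ P.side c' e' ++ b⟩ ⟨a ++ P.side c e ++ m, c', e', b⟩
      ⟨a ++ P.side c (!e) ++ m, c', e', b⟩ ⟨a, c, e, m ++ P.side c' (!e') ++ b⟩
  | right (a c e m c' e' b) : Par ⟨a ++ P.side c e ++ m, c', e', b⟩ ⟨a, c, e, m ++ P.side c' e' ++ b⟩
      ⟨a, c, e, m ++ P.side c' (!e') ++ b⟩ ⟨a ++ P.side c (!e) ++ m, c', e', b⟩

section
variable {s t t' s' : P.DS}

theorem Par.symm (h : Par s t t' s') : Par t s s' t' := by
  cases h
  · exact Par.right ..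
  · exact Par.left ..

theorem Par.src_eq (h : Par s t t' s') : s.src = t.src := by cases h <;> simp [DS.src]
theorem Par.src_t' (h : Par s t t' s') : t'.src = s.tgt := by cases h <;> simp [DS.src, DS.tgt]
theorem Par.src_s' (h : Par s t t' s') : s'.src = t.tgt := h.symm.src_t'
theorem Par.tgt_eq (h : Par s t t' s') : t'.tgt = s'.tgt := by cases h <;> simp [DS.tgt]
theorem Par.c_eq (h : Par s t t' s') : t'.c = t.c := by cases h <;> rfl
theorem Par.e_eq (h : Par s t t' s') : t'.e = t.e := by cases h <;> rfl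

theorem Par.inv_left (h : Par s t t' s') : Par s.inv t' t s'.inv := by
  cases h with
  | left a c e m c' e' b => simpa [DS.inv] using Par.left (P := P) a c (!e) m c' e' b
  | right a c e m c' e' b => simpa [DS.inv] using Par.right (P := P) a c e m c' (!e') b

theorem Par.ev_eq (h : Par s t t' s') : s.ev * t'.ev = t.ev * s'.ev := by
  have key : ∀ a c e m c' e' b, (⟨a, c, e, m ++ P.side c' e' ++ b⟩ : P.DS).ev *
      (⟨a ++ P.side c (!e) ++ m, c', e', b⟩ : P.DS).ev =
      (⟨a ++ P.side c e ++ m, c', e', b⟩ : P.DS).ev *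
      (⟨a, c, e, m ++ P.side c' (!e') ++ b⟩ : P.DS).ev := by
    intro a c e m c' e' b
    have h := inv_mul_eq_iff_eq_mul.2 (gen_sq a c m c' b)
    cases e <;> cases e' <;> simp only [DS.ev, cond, Bool.not_true, Bool.not_false, ← h] <;> group
  cases h with
  | left a c e m c' e' b => exact key a c e m c' e' b
  | right a c e m c' e' b => exact (key a c e m c' e' b).symm

end

/-- paths of steps -/
def IsPath : List P.L → List P.DS → List P.L → Prop
  | ω, [], ω' => ω = ω'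
  | ω, t :: p, ω' => t.src = ω ∧ IsPath t.tgt p ω'

@[simp] theorem isPath_nil {ω ω' : List P.L} : IsPath ω [] ω' ↔ ω = ω' := Iff.rfl
@[simp] theorem isPath_cons {ω ω' : List P.L} {t : P.DS} {p : List P.DS} :
    IsPath ω (t :: p) ω' ↔ t.src = ω ∧ IsPath t.tgt p ω' := Iff.rfl

theorem isPath_append {ω ω' : List P.L} {p q : List P.DS} :
    IsPath ω (p ++ q) ω' ↔ ∃ u, IsPath ω p u ∧ IsPath u q ω' := by
  induction p generalizing ω with
  | nil => simp
  | cons t p ih => simp only [List.cons_append, isPath_cons, ih]; tauto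

theorem IsPath.append {ω u ω' : List P.L} {p q : List P.DS} (h : IsPath ω p u)
    (h' : IsPath u q ω') : IsPath ω (p ++ q) ω' := isPath_append.2 ⟨u, h, h'⟩

theorem IsPath.unique {ω u u' : List P.L} {p : List P.DS} (h : IsPath ω p u)
    (h' : IsPath ω p u') : u = u' := by
  induction p generalizing ω with
  | nil => exact h.symm.trans h'
  | cons t p ih => exact ih h.2 h'.2

def ev (p : List P.DS) : P.U := (p.map DS.ev).prod

@[simp] theorem ev_nil : ev ([] : List P.DS) = 1 := rfl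
@[simp] theorem ev_cons (t : P.DS) (p : List P.DS) : ev (t :: p) = t.ev * ev p := by simp [ev]
@[simp] theorem ev_append (p q : List P.DS) : ev (p ++ q) = ev p * ev q := by simp [ev]

def pinv (p : List P.DS) : List P.DS := (p.map DS.inv).reverse

@[simp] theorem pinv_nil : pinv ([] : List P.DS) = [] := rfl
@[simp] theorem pinv_cons (t : P.DS) (p : List P.DS) : pinv (t :: p) = pinv p ++ [t.inv] := by
  simp [pinv]
@[simp] theorem pinv_append (p q : List P.DS) : pinv (p ++ q) = pinv q ++ pinv p := by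
  simp [pinv]
@[simp] theorem pinv_pinv (p : List P.DS) : pinv (pinv p) = p := by
  induction p with
  | nil => rfl
  | cons t p ih => simp [ih]
@[simp] theorem length_pinv (p : List P.DS) : (pinv p).length = p.length := by simp [pinv]
@[simp] theorem ev_pinv (p : List P.DS) : ev (pinv p) = (ev p)⁻¹ := by
  induction p with
  | nil => simp
  | cons t p ih => simp [ih]
theorem mem_pinv {p : List P.DS} {t : P.DS} : t ∈ pinv p ↔ t.inv ∈ p := by
  simp only [pinv, List.mem_reverse, List.mem_map]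
  exact ⟨by rintro ⟨s, hs, rfl⟩; simpa using hs, fun h => ⟨_, h, by simp⟩⟩

theorem IsPath.pinv {ω ω' : List P.L} {p : List P.DS} (h : IsPath ω p ω') :
    IsPath ω' (pinv p) ω := by
  induction p generalizing ω with
  | nil => exact h.symm
  | cons t p ih => rw [pinv_cons]; exact (ih h.2).append (by simpa using h.1)

/-- `g` is a morphism from `ω` to `ω'` -/
def Conn (ω : List P.L) (g : P.U) (ω' : List P.L) : Prop := ∃ p, IsPath ω p ω' ∧ ev p = g

def Sim (ω ω' : List P.L) : Prop := ∃ g, Conn ω g ω'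

theorem IsPath.conn {ω ω' : List P.L} {p : List P.DS} (h : IsPath ω p ω') : Conn ω (ev p) ω' :=
  ⟨p, h, rfl⟩

theorem Conn.refl (ω : List P.L) : Conn ω 1 ω := ⟨[], rfl, rfl⟩

theorem Conn.step (t : P.DS) : Conn t.src t.ev t.tgt := ⟨[t], by simp, by simp⟩

theorem Conn.trans {ω u ω' : List P.L} {g h : P.U} (h₁ : Conn ω g u) (h₂ : Conn u h ω') :
    Conn ω (g * h) ω' := by
  obtain ⟨p, hp, rfl⟩ := h₁
  obtain ⟨q, hq, rfl⟩ := h₂
  exact ⟨p ++ q, hp.append hq, by simp⟩

theorem Conn.symm {ω ω' : List P.L} {g : P.U} (h : Conn ω g ω') : Conn ω' g⁻¹ ω := by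
  obtain ⟨p, hp, rfl⟩ := h
  exact ⟨pinv p, hp.pinv, by simp⟩

theorem Conn.pow {ω : List P.L} {g : P.U} (h : Conn ω g ω) (n : ℕ) : Conn ω (g ^ n) ω := by
  induction n with
  | zero => simpa using Conn.refl ω
  | succ n ih => rw [pow_succ]; exact ih.trans h

theorem Conn.sim {ω ω' : List P.L} {g : P.U} (h : Conn ω g ω') : Sim ω ω' := ⟨g, h⟩
theorem Sim.refl (ω : List P.L) : Sim ω ω := ⟨1, Conn.refl ω⟩
theorem Sim.symm {ω ω' : List P.L} (h : Sim ω ω') : Sim ω' ω := ⟨_, h.choose_spec.symm⟩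
theorem Sim.trans {ω u ω' : List P.L} (h : Sim ω u) (h' : Sim u ω') : Sim ω ω' :=
  ⟨_, h.choose_spec.trans h'.choose_spec⟩
theorem Sim.step (t : P.DS) : Sim t.src t.tgt := (Conn.step t).sim

theorem IsPath.sim_of_mem {ω ω' : List P.L} {p : List P.DS} (h : IsPath ω p ω') {t : P.DS}
    (ht : t ∈ p) : Sim ω t.src := by
  obtain ⟨p₁, p₂, rfl⟩ := List.append_of_mem ht
  obtain ⟨u, h₁, h₂⟩ := isPath_append.1 h
  exact h₂.1 ▸ h₁.conn.sim

/-- induction along `Sim` -/
theorem Sim.induction {ω ω' : List P.L} (h : Sim ω ω') {Q : List P.L → Prop} (h0 : Q ω)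
    (hs : ∀ t : P.DS, Q t.src → Q t.tgt) : Q ω' := by
  obtain ⟨_, p, hp, -⟩ := h
  induction p generalizing ω with
  | nil => exact hp ▸ h0
  | cons t p ih => exact ih (hs t (hp.1 ▸ h0)) hp.2

theorem Sim.eq_nil {ω : List P.L} (h : Sim [] ω) : ω = [] := by
  refine h.induction (Q := fun u => u = []) rfl fun t ht => ?_
  simp [DS.src, P.ne] at ht

/-- the diagram group as a subgroup of the universal group -/
def D (ω : List P.L) : Subgroup P.U where
  carrier := {g | Conn ω g ω}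
  one_mem' := Conn.refl ω
  mul_mem' := Conn.trans
  inv_mem' := Conn.symm

theorem mem_D {ω : List P.L} {g : P.U} : g ∈ D ω ↔ Conn ω g ω := Iff.rfl

/-- conjugation along a morphism -/
def Conn.equivD {ω ω' : List P.L} {g : P.U} (h : Conn ω g ω') : D ω ≃* D ω' where
  toFun x := ⟨g⁻¹ * x.1 * g, (h.symm.trans x.2).trans h⟩
  invFun x := ⟨g * x.1 * g⁻¹, (h.trans x.2).trans h.symm⟩
  left_inv x := Subtype.ext (by simp only; group)
  right_inv x := Subtype.ext (by simp only; group)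
  map_mul' x y := Subtype.ext (by simp only [Subgroup.coe_mul]; group)

theorem Conn.unique {ω u u' : List P.L} {g : P.U} (h : Conn ω g u) (h' : Conn ω g u') :
    u = u' := by
  let φ : P.U →* FreeGroup (List P.L) := lift
    (fun x => FreeGroup.of (x.1 ++ P.side x.2.1 false ++ x.2.2) *
      (FreeGroup.of (x.1 ++ P.side x.2.1 true ++ x.2.2))⁻¹) (by
      intro a c m c' b
      simp only [List.append_assoc]
      group)
  have h1 : ∀ t : P.DS, φ t.ev = FreeGroup.of t.src * (FreeGroup.of t.tgt)⁻¹ := by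
    rintro ⟨a, c, _ | _, b⟩ <;> simp [φ, DS.ev, DS.src, DS.tgt]
  have h2 : ∀ p ω u, IsPath ω p u → φ (ev p) = FreeGroup.of ω * (FreeGroup.of u)⁻¹ := by
    intro p
    induction p with
    | nil => intro ω u h; simp [isPath_nil.1 h]
    | cons t p ih => intro ω u h; rw [ev_cons, map_mul, h1, ih _ _ h.2, h.1]; group
  obtain ⟨p, hp, rfl⟩ := h
  obtain ⟨q, hq, he⟩ := h'
  have := (h2 p _ _ hp).symm.trans (he ▸ h2 q _ _ hq)
  exact FreeGroup.of_injective (inv_injective (mul_left_cancel this))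

/-- whiskering of steps -/
def DS.wh (α γ : List P.L) (t : P.DS) : P.DS := ⟨α ++ t.a, t.c, t.e, t.b ++ γ⟩

/-- whiskering of morphisms -/
def wh (α γ : List P.L) : P.U →* P.U :=
  lift (fun x => P.gen (α ++ x.1, x.2.1, x.2.2 ++ γ)) (by
    intro a c m c' b
    simpa [List.append_assoc] using gen_sq (α ++ a) c m c' (b ++ γ))

@[simp] theorem DS.src_wh (α γ : List P.L) (t : P.DS) : (t.wh α γ).src = α ++ t.src ++ γ := by
  simp [DS.wh, DS.src]
@[simp] theorem DS.tgt_wh (α γ : List P.L) (t : P.DS) : (t.wh α γ).tgt = α ++ t.tgt ++ γ := by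
  simp [DS.wh, DS.tgt]
@[simp] theorem DS.wh_inv (α γ : List P.L) (t : P.DS) : t.inv.wh α γ = (t.wh α γ).inv := rfl
@[simp] theorem DS.ev_wh (α γ : List P.L) (t : P.DS) : (t.wh α γ).ev = Pres.wh α γ t.ev := by
  rcases t with ⟨a, c, _ | _, b⟩ <;> simp [DS.wh, DS.ev, Pres.wh]

@[simp] theorem wh_wh (α γ α' γ' : List P.L) (g : P.U) :
    wh α γ (wh α' γ' g) = wh (α ++ α') (γ' ++ γ) g := by
  have : (wh α γ).comp (wh α' γ') = wh (P := P) (α ++ α') (γ' ++ γ) :=
    hom_ext fun x => by simp [wh]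
  exact DFunLike.congr_fun this g

@[simp] theorem wh_nil (g : P.U) : wh [] [] g = g := by
  have : wh (P := P) [] [] = MonoidHom.id _ := hom_ext fun x => by simp [wh]
  rw [this]; rfl

@[simp] theorem ev_map_wh (α γ : List P.L) (p : List P.DS) :
    ev (p.map (DS.wh α γ)) = wh α γ (ev p) := by
  induction p with
  | nil => simp
  | cons t p ih => simp [ih]

theorem IsPath.wh {ω ω' : List P.L} {p : List P.DS} (h : IsPath ω p ω') (α γ : List P.L) :
    IsPath (α ++ ω ++ γ) (p.map (DS.wh α γ)) (α ++ ω' ++ γ) := by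
  induction p generalizing ω with
  | nil => simp [isPath_nil.1 h]
  | cons t p ih => exact ⟨by simp [h.1], by simpa using ih h.2⟩

theorem Conn.wh {ω ω' : List P.L} {g : P.U} (h : Conn ω g ω') (α γ : List P.L) :
    Conn (α ++ ω ++ γ) (wh α γ g) (α ++ ω' ++ γ) := by
  obtain ⟨p, hp, rfl⟩ := h
  exact ⟨_, hp.wh α γ, by simp⟩

theorem Conn.wl {ω ω' : List P.L} {g : P.U} (h : Conn ω g ω') (α : List P.L) :
    Conn (α ++ ω) (Pres.wh α [] g) (α ++ ω') := by simpa using h.wh α []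

theorem Conn.wr {ω ω' : List P.L} {g : P.U} (h : Conn ω g ω') (γ : List P.L) :
    Conn (ω ++ γ) (Pres.wh [] γ g) (ω' ++ γ) := by simpa using h.wh [] γ

theorem Sim.wh {ω ω' : List P.L} (h : Sim ω ω') (α γ : List P.L) :
    Sim (α ++ ω ++ γ) (α ++ ω' ++ γ) := (h.choose_spec.wh α γ).sim
theorem Sim.wl {ω ω' : List P.L} (h : Sim ω ω') (α : List P.L) : Sim (α ++ ω) (α ++ ω') :=
  (h.choose_spec.wl α).sim
theorem Sim.wr {ω ω' : List P.L} (h : Sim ω ω') (γ : List P.L) : Sim (ω ++ γ) (ω' ++ γ) :=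
  (h.choose_spec.wr γ).sim

theorem DS.eq_wh (t : P.DS) : t = DS.wh t.a t.b ⟨[], t.c, t.e, []⟩ := by
  cases t; simp [DS.wh]

/-- the interchange law -/
theorem interchange {α α' γ γ' : List P.L} {g h : P.U} (hg : Conn α g α') (hh : Conn γ h γ') :
    wh [] γ g * wh α' [] h = wh α [] h * wh [] γ' g := by
  have key : ∀ (s : P.DS) (q : List P.DS) (γ : List P.L), IsPath γ q γ' →
      wh [] γ s.ev * wh s.tgt [] (ev q) = wh s.src [] (ev q) * wh [] γ' s.ev := by
    intro s q
    induction q with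
    | nil => intro γ h; simp [isPath_nil.1 h]
    | cons t q ih =>
      intro γ h
      have h1 := (Par.left (P := P) s.a s.c s.e (s.b ++ t.a) t.c t.e t.b).ev_eq
      have e1 : wh [] γ s.ev = DS.ev ⟨s.a, s.c, s.e, s.b ++ t.a ++ P.side t.c t.e ++ t.b⟩ := by
        rw [← DS.ev_wh, ← h.1]; simp [DS.wh, DS.src]
      have e2 : wh s.tgt [] t.ev =
          DS.ev ⟨s.a ++ P.side s.c (!s.e) ++ (s.b ++ t.a), t.c, t.e, t.b⟩ := by
        rw [← DS.ev_wh]; simp [DS.wh, DS.tgt]
      have e3 : wh s.src [] t.ev = DS.ev ⟨s.a ++ P.side s.c s.e ++ (s.b ++ t.a), t.c, t.e, t.b⟩ := by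
        rw [← DS.ev_wh]; simp [DS.wh, DS.src]
      have e4 : wh [] t.tgt s.ev =
          DS.ev ⟨s.a, s.c, s.e, s.b ++ t.a ++ P.side t.c (!t.e) ++ t.b⟩ := by
        rw [← DS.ev_wh]; simp [DS.wh, DS.tgt]
      rw [ev_cons, map_mul, map_mul, ← mul_assoc, e1, e2, h1, ← e3, ← e4, mul_assoc, ih _ h.2,
        mul_assoc]
  obtain ⟨p, hp, rfl⟩ := hg
  obtain ⟨q, hq, rfl⟩ := hh
  induction p generalizing α with
  | nil => simp [isPath_nil.1 hp]
  | cons s p ih =>
    rw [ev_cons, map_mul, map_mul, mul_assoc, ih hp.2, ← mul_assoc, key s q γ hq, hp.1, mul_assoc]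

theorem interchange' {α α' γ γ' : List P.L} {g h : P.U} (hg : Conn α g α') (hh : Conn γ h γ')
    (x y : List P.L) :
    wh x (γ ++ y) g * wh (x ++ α') y h = wh (x ++ α) y h * wh x (γ' ++ y) g := by
  simpa using congrArg (wh x y) (interchange hg hh)

/-- action of a path on states -/
def act {S : Type*} (f : P.DS → S → S) (p : List P.DS) (σ : S) : S := p.foldl (fun σ t => f t σ) σ

@[simp] theorem act_nil {S : Type*} (f : P.DS → S → S) (σ : S) : act f [] σ = σ := rfl
@[simp] theorem act_cons {S : Type*} (f : P.DS → S → S) (t : P.DS) (p : List P.DS) (σ : S) :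
    act f (t :: p) σ = act f p (f t σ) := rfl
@[simp] theorem act_append {S : Type*} (f : P.DS → S → S) (p q : List P.DS) (σ : S) :
    act f (p ++ q) σ = act f q (act f p σ) := by simp [act]

/-- the action of a path on states only depends on its class in the universal group -/
theorem act_eq {S : Type*} (pr : S → List P.L) (f : P.DS → S → S)
    (h1 : ∀ t σ, pr σ = t.src → pr (f t σ) = t.tgt ∧ f t.inv (f t σ) = σ)
    (h2 : ∀ s t t' s' σ, Par s t t' s' → pr σ = s.src → f t' (f s σ) = f s' (f t σ))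
    {ω ω' : List P.L} {p q : List P.DS} (hp : IsPath ω p ω') (hq : IsPath ω q ω')
    (he : ev p = ev q) (σ : S) (hσ : pr σ = ω) : act f p σ = act f q σ := by
  classical
  have a1 : ∀ (p : List P.DS) u u' σ, IsPath u p u' → pr σ = u →
      pr (act f p σ) = u' ∧ act f (pinv p) (act f p σ) = σ := by
    intro p
    induction p with
    | nil => intro u u' σ h hσ; exact ⟨hσ.trans h, rfl⟩
    | cons t p ih =>
      intro u u' σ h hσ
      have h3 := h1 t σ (hσ.trans h.1.symm)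
      have h4 := ih _ _ _ h.2 h3.1
      exact ⟨h4.1, by simp [h4.2, h3.2]⟩
  have a2 : ∀ (p : List P.DS) u u' σ, IsPath u p u' → pr σ = u' →
      act f p (act f (pinv p) σ) = σ := by
    intro p u u' σ h hσ
    simpa using (a1 (pinv p) _ _ σ h.pinv hσ).2
  let F := {σ : S // pr σ = ω}
  -- a loop acts on the fibre
  let lp : ∀ p : List P.DS, IsPath ω p ω → Equiv.Perm F := fun p h =>
    { toFun := fun σ => ⟨act f (pinv p) σ.1, (a1 _ _ _ _ h.pinv σ.2).1⟩
      invFun := fun σ => ⟨act f p σ.1, (a1 _ _ _ _ h σ.2).1⟩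
      left_inv := fun σ => Subtype.ext (a2 _ _ _ _ h σ.2)
      right_inv := fun σ => Subtype.ext (a1 _ _ _ _ h σ.2).2 }
  have hτ : ∀ u, ∃ τ : List P.DS, Sim ω u → IsPath ω τ u := by
    intro u
    by_cases h : Sim ω u
    · obtain ⟨_, τ, hτ, -⟩ := h
      exact ⟨τ, fun _ => hτ⟩
    · exact ⟨[], fun h' => absurd h' h⟩
  choose τ hτ using hτ
  have hl : ∀ (p : List P.DS) u u', IsPath u p u' → Sim ω u →
      IsPath ω (τ u ++ p ++ pinv (τ u')) ω := fun p u u' h hu =>
    ((hτ u hu).append h).append (hτ u' (hu.trans h.conn.sim)).pinv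
  let ψ : ∀ (p : List P.DS) u u', IsPath u p u' → Equiv.Perm F := fun p u u' h =>
    if hu : Sim ω u then lp _ (hl p u u' h hu) else 1
  have ψ_mul : ∀ (p q : List P.DS) u u' u'' (h : IsPath u p u') (h' : IsPath u' q u''),
      ψ p u u' h * ψ q u' u'' h' = ψ (p ++ q) u u'' (h.append h') := by
    intro p q u u' u'' h h'
    by_cases hu : Sim ω u
    · have hu' := hu.trans h.conn.sim
      simp only [ψ, dif_pos hu, dif_pos hu']
      ext σ
      simp only [lp, Equiv.Perm.coe_mul, Function.comp, Equiv.coe_fn_mk, pinv_append, pinv_pinv,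
        act_append]
      rw [a2 (τ u') ω u' _ (hτ u' hu')]
      exact (a1 _ _ _ _ h'.pinv (a1 _ _ _ _ (hτ u'' (hu'.trans h'.conn.sim)) σ.2).1).1
    · have hu' : ¬ Sim ω u' := fun h3 => hu (h3.trans h.conn.sim.symm)
      simp [ψ, hu, hu']
  have ψ_congr : ∀ (p q : List P.DS) u u' (h : IsPath u p u') (h' : IsPath u q u'),
      (∀ σ, pr σ = u' → act f (pinv p) σ = act f (pinv q) σ) → ψ p u u' h = ψ q u u' h' := by
    intro p q u u' h h' hh
    by_cases hu : Sim ω u
    · simp only [ψ, dif_pos hu]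
      ext σ
      simp only [lp, Equiv.coe_fn_mk, pinv_append, pinv_pinv, act_append]
      rw [hh _ (a1 _ _ _ _ (hτ u' (hu.trans h.conn.sim)) σ.2).1]
    · simp [ψ, hu]
  have ψ_nil : ∀ u (h : IsPath u [] u), ψ [] u u h = 1 := by
    intro u h
    have := ψ_mul [] [] u u u h h
    simpa using this
  have st : ∀ t : P.DS, IsPath t.src [t] t.tgt := fun t => by simp
  let ψ₁ : P.DS → Equiv.Perm F := fun t => ψ [t] _ _ (st t)
  have ψ_cast : ∀ (p : List P.DS) u u' v v' (h : IsPath u p u') (h' : IsPath v p v'), u = v →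
      ψ p u u' h = ψ p v v' h' := by
    intro p u u' v v' h h' huv
    subst huv
    obtain rfl := h.unique h'
    rfl
  have ψ_two : ∀ s t : P.DS, ∀ h : t.src = s.tgt,
      ψ₁ s * ψ₁ t = ψ [s, t] s.src t.tgt (by simp [h]) := by
    intro s t h
    have h' : IsPath s.tgt [t] t.tgt := by simp [h]
    have := ψ_mul [s] [t] s.src s.tgt t.tgt (st s) h'
    rw [ψ_cast [t] s.tgt t.tgt t.src t.tgt h' (st t) h.symm] at this
    exact this
  have ψ_inv : ∀ t : P.DS, ψ₁ t.inv = (ψ₁ t)⁻¹ := by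
    intro t
    rw [eq_inv_iff_mul_eq_one, ψ_two t.inv t (by simp)]
    rw [ψ_congr [t.inv, t] [] t.inv.src t.tgt (by simp) (by simp)
      fun σ hσ => by simpa using (h1 t.inv σ hσ).2]
    exact ψ_nil t.tgt rfl
  have ψ_par : ∀ s t t' s', Par s t t' s' → ψ₁ s * ψ₁ t' = ψ₁ t * ψ₁ s' := by
    intro s t t' s' h
    rw [ψ_two s t' h.src_t', ψ_two t s' h.src_s',
      ψ_cast [t, s'] t.src s'.tgt s.src t'.tgt (by simp [h.src_s']) (by simp [h.src_eq, h.src_s', h.tgt_eq])
        h.src_eq.symm]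
    refine ψ_congr [s, t'] [t, s'] s.src t'.tgt (by simp [h.src_t'])
      (by simp [h.src_eq, h.src_s', h.tgt_eq]) fun σ hσ => ?_
    have h3 : Par t'.inv s'.inv s.inv t.inv := by
      simpa using h.inv_left.symm.inv_left
    simpa using h2 _ _ _ _ σ h3 hσ
  let φ : P.U →* Equiv.Perm F := lift (fun x => ψ₁ ⟨x.1, x.2.1, false, x.2.2⟩)
    fun a c m c' b => ψ_par _ _ _ _ (Par.left a c false m c' false b)
  have φ1 : ∀ t : P.DS, φ t.ev = ψ₁ t := by
    rintro ⟨a, c, _ | _, b⟩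
    · simp [φ, DS.ev]
    · simpa [φ, DS.ev, DS.inv] using (ψ_inv ⟨a, c, false, b⟩).symm
  have φ2 : ∀ (p : List P.DS) u u' (h : IsPath u p u'), φ (ev p) = ψ p u u' h := by
    intro p
    induction p with
    | nil => intro u u' h; obtain rfl := isPath_nil.1 h; simp [ψ_nil]
    | cons t p ih =>
      intro u u' h
      obtain rfl := h.1
      rw [ev_cons, map_mul, φ1, ih _ _ h.2]
      exact ψ_mul [t] p _ _ _ (st t) h.2
  have h5 : ψ (pinv p) ω' ω hp.pinv = ψ (pinv q) ω' ω hq.pinv := by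
    rw [← φ2 _ _ _ hp.pinv, ← φ2 _ _ _ hq.pinv, ev_pinv, ev_pinv, he]
  have hω' := hp.conn.sim
  simp only [ψ, dif_pos hω'] at h5
  have h6 := congrArg (fun e : Equiv.Perm F =>
    (e ⟨act f (pinv (τ ω)) σ, (a1 _ _ _ _ (hτ ω (Sim.refl ω)).pinv hσ).1⟩).1) h5
  simp only [lp, Equiv.coe_fn_mk, pinv_append, pinv_pinv, act_append] at h6
  rw [a2 _ _ _ _ (hτ ω (Sim.refl ω)) hσ] at h6
  have h7 := congrArg (act f (τ ω')) h6
  rwa [a2 _ _ _ _ (hτ ω' hω') (a1 _ _ _ _ hp hσ).1,
    a2 _ _ _ _ (hτ ω' hω') (a1 _ _ _ _ hq hσ).1] at h7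

end Pres

end Pool.Agent.MP_1e5511_al
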