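import Mathlib

set_option autoImplicit false

namespace Pool.Agent.MP_1e5511_al

open CategoryTheory

/-- A cube complex, given by its sets of `n`-cubes and their faces: `res x ι δ` is the face of the
`n`-cube `x` on which the coordinates in the range of `ι` vary and every other coordinate `i` is
fixed to `δ i`. -/
structure CubeComplex where
  cell : ℕ → Type
  res : ∀ {n k : ℕ}, cell n → (Fin k ↪o Fin n) → (Fin n → Bool) → cell k
  res_congr : ∀ {n k : ℕ} (x : cell n) (ι : Fin k ↪o Fin n) (δ δ' : Fin n → Bool),
    (∀ i, i ∉ Set.range ι → δ i = δ' i) → res x ι δ = res x ι δ'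
  res_id : ∀ {n : ℕ} (x : cell n) (δ : Fin n → Bool), res x (OrderEmbedding.id _) δ = x
  res_res : ∀ {n k m : ℕ} (x : cell n) (ι : Fin k ↪o Fin n) (κ : Fin m ↪o Fin k)
    (δ : Fin n → Bool) (δ' : Fin k → Bool),
    res (res x ι δ) κ δ' = res x (κ.trans ι) (Function.extend ι δ' δ)

namespace CubeComplex

variable (X : CubeComplex)

/-- the vertex of the cube `x` at the corner `δ` -/
def vtx {n : ℕ} (x : X.cell n) (δ : Fin n → Bool) : X.cell 0 :=
  X.res x OrderEmbedding.ofIsEmpty δ

/-- the edge of the cube `x` in direction `i` through the corner `δ` -/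
def edg {n : ℕ} (x : X.cell n) (i : Fin n) (δ : Fin n → Bool) : X.cell 1 :=
  X.res x (OrderEmbedding.ofStrictMono (fun _ => i) (Subsingleton.strictMono _)) δ

/-- the vertex at which an oriented edge (an edge with a chosen end) starts -/
def start (p : X.cell 1 × Bool) : X.cell 0 := X.vtx p.1 fun _ => p.2

/-- the oriented edges of the cube `x` that start at its corner `δ` -/
def corner {n : ℕ} (x : X.cell n) (δ : Fin n → Bool) (i : Fin n) : X.cell 1 × Bool :=
  (X.edg x i δ, δ i)

/-- two oriented edges form a corner of a square (they are adjacent in the link) -/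
def Adj (p q : X.cell 1 × Bool) : Prop :=
  ∃ (s : X.cell 2) (δ : Fin 2 → Bool),
    (p = X.corner s δ 0 ∧ q = X.corner s δ 1) ∨ (p = X.corner s δ 1 ∧ q = X.corner s δ 0)

/-- nonpositive curvature: the link of every vertex is a simplicial complex, and it is flag -/
def NPC : Prop :=
  (∀ (n : ℕ) (x : X.cell n) (δ : Fin n → Bool), Function.Injective (X.corner x δ)) ∧
  (∀ (n : ℕ) (x x' : X.cell n) (δ δ' : Fin n → Bool), X.vtx x δ = X.vtx x' δ' →
    Set.range (X.corner x δ) = Set.range (X.corner x' δ') → x = x' ∧ δ = δ') ∧
  (∀ (n : ℕ) (v : X.cell 0) (f : Fin n → X.cell 1 × Bool), (∀ i, X.start (f i) = v) →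
    (∀ i j, i ≠ j → X.Adj (f i) (f j)) →
    ∃ (x : X.cell n) (δ : Fin n → Bool), X.vtx x δ = v ∧ Set.range (X.corner x δ) = Set.range f)

/-- parallelism of oriented edges, generated by opposite sides of squares -/
def Parallel : X.cell 1 × Bool → X.cell 1 × Bool → Prop :=
  Relation.EqvGen fun p q => ∃ (s : X.cell 2) (i : Fin 2) (δ δ' : Fin 2 → Bool) (b : Bool),
    p = (X.edg s i δ, b) ∧ q = (X.edg s i δ', b)

/-- two edges are dual to the same hyperplane -/
def SameHyp (e e' : X.cell 1) : Prop := ∃ b b', X.Parallel (e, b) (e', b')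

/-- special cube complexes: nonpositively curved, hyperplanes are two-sided, do not
self-intersect, do not directly self-osculate, and do not inter-osculate -/
def Special : Prop :=
  X.NPC ∧
  (∀ (e : X.cell 1) (b : Bool), ¬ X.Parallel (e, b) (e, !b)) ∧
  (∀ (s : X.cell 2) (δ : Fin 2 → Bool), ¬ X.SameHyp (X.edg s 0 δ) (X.edg s 1 δ)) ∧
  (∀ p q : X.cell 1 × Bool, X.Parallel p q → X.start p = X.start q → p ≠ q → X.Adj p q) ∧
  (∀ (s : X.cell 2) (δ : Fin 2 → Bool) (p q : X.cell 1 × Bool), X.SameHyp (X.edg s 0 δ) p.1 →
    X.SameHyp (X.edg s 1 δ) q.1 → X.start p = X.start q → X.Adj p q)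

/-- finitely many cubes -/
def Compact : Prop := Finite (Σ n, X.cell n)

/-- any two vertices are joined by an edge path -/
def Connected : Prop :=
  ∀ v v' : X.cell 0, Relation.EqvGen
    (fun a b => ∃ e : X.cell 1, X.start (e, false) = a ∧ X.start (e, true) = b) v v'

/-- the vertices, as objects of the 1-skeleton -/
def Vert : Type := X.cell 0

instance : Quiver X.Vert :=
  ⟨fun a b => {e : X.cell 1 // X.start (e, false) = a ∧ X.start (e, true) = b}⟩

/-- the two ways around a square -/
inductive SqRel : HomRel (Quiver.FreeGroupoid X.Vert)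
  | mk {a p q b : X.Vert} (e₁ : a ⟶ p) (e₂ : p ⟶ b) (e₃ : a ⟶ q) (e₄ : q ⟶ b) (s : X.cell 2)
      (h₁ : e₁.1 = X.edg s 0 ![false, false]) (h₂ : e₂.1 = X.edg s 1 ![true, false])
      (h₃ : e₃.1 = X.edg s 1 ![false, false]) (h₄ : e₄.1 = X.edg s 0 ![false, true]) :
      SqRel ((Quiver.FreeGroupoid.of X.Vert).map e₁ ≫ (Quiver.FreeGroupoid.of X.Vert).map e₂)
        ((Quiver.FreeGroupoid.of X.Vert).map e₃ ≫ (Quiver.FreeGroupoid.of X.Vert).map e₄)

/-- the vertex `v` as an object of the edge-path groupoid (the free groupoid on the 1-skeleton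
modulo the squares) -/
def obj (v : X.cell 0) : CategoryTheory.Quotient X.SqRel :=
  (CategoryTheory.Quotient.functor X.SqRel).obj ((Quiver.FreeGroupoid.of X.Vert).obj v)

/-- the fundamental group at `v` -/
def Pi1 (v : X.cell 0) : Type := X.obj v ⟶ X.obj v

noncomputable instance (v : X.cell 0) : Group (X.Pi1 v) := Groupoid.vertexGroup (X.obj v)

end CubeComplex

section Squier

variable {A R : Type} (side : R → Bool → List A)

/-- equality of words modulo the relations `side r false = side r true` -/
def Eqv : List A → List A → Prop :=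
  Relation.EqvGen fun u v => ∃ a r b, u = a ++ side r false ++ b ∧ v = a ++ side r true ++ b

/-- number of slots of a word with slots `a₀ {r₁} a₁ … {rₙ} aₙ` -/
def slots (x : List (A ⊕ R)) : ℕ := x.countP Sum.isRight

/-- the word obtained by choosing the first side in every slot -/
def word (x : List (A ⊕ R)) : List A := x.flatMap (Sum.elim (fun l => [l]) fun r => side r false)

/-- fill the `j`-th slot with the side `b` if `σ j = some b`, keep it if `σ j = none` -/
def fill : List (A ⊕ R) → (ℕ → Option Bool) → List (A ⊕ R)
  | [], _ => []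
  | Sum.inl l :: x, σ => Sum.inl l :: fill x σ
  | Sum.inr r :: x, σ =>
      (σ 0).elim [Sum.inr r] (fun b => (side r b).map Sum.inl) ++ fill x fun j => σ (j + 1)

open Classical in
/-- keep the slots in the range of `ι`, fill the others according to `δ` -/
noncomputable def choice {n k : ℕ} (ι : Fin k ↪o Fin n) (δ : Fin n → Bool) (j : ℕ) : Option Bool :=
  if h : j < n then (if (⟨j, h⟩ : Fin n) ∈ Set.range ι then none else some (δ ⟨j, h⟩)) else none

theorem fill_congr (x : List (A ⊕ R)) (σ τ : ℕ → Option Bool)
    (h : ∀ j < slots x, σ j = τ j) : fill side x σ = fill side x τ := by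
  induction x generalizing σ τ with
  | nil => rfl
  | cons y x ih =>
    cases y with
    | inl l =>
      simp only [fill]
      rw [ih σ τ fun j hj => h j (by simpa [slots] using hj)]
    | inr r =>
      have hs : slots (Sum.inr r :: x : List (A ⊕ R)) = slots x + 1 := by simp [slots]
      simp only [fill]
      rw [h 0 (by omega), ih _ _ fun j hj => h (j + 1) (by omega)]

theorem fill_none (x : List (A ⊕ R)) : fill side x (fun _ => none) = x := by
  induction x with
  | nil => rfl
  | cons y x ih => cases y <;> simp [fill, ih]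

theorem fill_inl (u : List A) (x : List (A ⊕ R)) (σ : ℕ → Option Bool) :
    fill side (u.map Sum.inl ++ x) σ = u.map Sum.inl ++ fill side x σ := by
  induction u with
  | nil => rfl
  | cons l u ih => simp [fill, ih]

theorem slots_fill (x : List (A ⊕ R)) (σ : ℕ → Option Bool) :
    slots (fill side x σ) = Nat.count (fun j => σ j = none) (slots x) := by
  induction x generalizing σ with
  | nil => rfl
  | cons y x ih =>
    cases y with
    | inl l => simpa [fill, slots] using ih σ
    | inr r =>
      have hs : slots (Sum.inr r :: x : List (A ⊕ R)) = slots x + 1 := by simp [slots]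
      have := ih fun j => σ (j + 1)
      rw [hs, Nat.count_succ']
      simp only [slots] at this ⊢
      rcases h : σ 0 with _ | b
      · simp [fill, h, this]
      · simp [fill, h, this, List.countP_eq_zero]

theorem fill_fill (x : List (A ⊕ R)) (σ τ : ℕ → Option Bool) :
    fill side (fill side x σ) τ =
      fill side x fun j => (σ j).elim (τ (Nat.count (fun i => σ i = none) j)) some := by
  induction x generalizing σ τ with
  | nil => rfl
  | cons y x ih =>
    cases y with
    | inl l => simp [fill, ih]
    | inr r =>
      rcases h : σ 0 with _ | b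
      · simp [fill, h, ih, Nat.count_succ']
      · simp [fill, h, ih, Nat.count_succ', fill_inl]

theorem eqv_append (a b : List A) {u v : List A} (h : Eqv side u v) :
    Eqv side (a ++ u ++ b) (a ++ v ++ b) := by
  induction h with
  | rel u v h =>
    obtain ⟨a', r, b', rfl, rfl⟩ := h
    exact Relation.EqvGen.rel _ _ ⟨a ++ a', r, b' ++ b, by simp, by simp⟩
  | refl => exact Relation.EqvGen.refl _
  | symm _ _ _ ih => exact ih.symm _ _
  | trans _ _ _ _ _ ih₁ ih₂ => exact ih₁.trans _ _ _ ih₂

theorem eqv_fill (x : List (A ⊕ R)) (σ : ℕ → Option Bool) :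
    Eqv side (word side (fill side x σ)) (word side x) := by
  induction x generalizing σ with
  | nil => exact Relation.EqvGen.refl _
  | cons y x ih =>
    cases y with
    | inl l => simpa [fill, word] using eqv_append side [l] [] (ih σ)
    | inr r =>
      have h1 := ih fun j => σ (j + 1)
      have h2 : ∀ b, Eqv side (side r b ++ word side x) (side r false ++ word side x) := by
        intro b
        cases b
        · exact Relation.EqvGen.refl _
        · exact (Relation.EqvGen.rel _ _ ⟨[], r, word side x, by simp, by simp⟩).symm _ _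
      have h3 : ∀ u : List A, (u.map (Sum.inl : A → A ⊕ R)).flatMap
          (Sum.elim (fun l => [l]) fun r => side r false) = u := by
        intro u
        induction u with
        | nil => rfl
        | cons l u ih => simpa using ih
      rcases h : σ 0 with _ | b
      · simpa [fill, word, h] using eqv_append side (side r false) [] h1
      · have h4 : Eqv side (side r b ++ word side (fill side x fun j => σ (j + 1)))
            (side r b ++ word side x) := by simpa using eqv_append side (side r b) [] h1
        have : Eqv side _ _ := h4.trans _ _ _ (h2 b)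
        simpa [fill, word, h, h3] using this

theorem count_choice {n k : ℕ} (ι : Fin k ↪o Fin n) (δ : Fin n → Bool) (j : ℕ) (hj : j ≤ n) :
    Nat.count (fun i => choice ι δ i = none) j =
      (Finset.univ.filter fun i : Fin k => (ι i : ℕ) < j).card := by
  rw [Nat.count_eq_card_filter_range]
  symm
  refine Finset.card_bij (fun i _ => (ι i : ℕ)) ?_ ?_ ?_
  · intro i hi
    simp only [Finset.mem_filter, Finset.mem_univ, true_and] at hi
    simp [choice, hi]
  · intro i _ i' _ h
    exact ι.injective (Fin.ext h)
  · intro m hm
    simp only [Finset.mem_filter, Finset.mem_range, choice] at hm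
    have hm' : m < n := by omega
    rw [dif_pos hm'] at hm
    by_cases h : (⟨m, hm'⟩ : Fin n) ∈ Set.range ι
    · obtain ⟨i, hi⟩ := h
      exact ⟨i, by simp [hi, hm.1], by simp [hi]⟩
    · rw [if_neg h] at hm
      simp at hm

theorem slots_fill_choice {n k : ℕ} (x : List (A ⊕ R)) (hx : slots x = n) (ι : Fin k ↪o Fin n)
    (δ : Fin n → Bool) : slots (fill side x (choice ι δ)) = k := by
  rw [slots_fill, hx, count_choice ι δ n le_rfl]
  simp

theorem choice_congr {n k : ℕ} (ι : Fin k ↪o Fin n) (δ δ' : Fin n → Bool)
    (h : ∀ i, i ∉ Set.range ι → δ i = δ' i) : choice ι δ = choice ι δ' := by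
  funext j
  simp only [choice]
  split_ifs with h1 h2
  · rfl
  · rw [h _ h2]
  · rfl

theorem fill_choice_id {n : ℕ} (x : List (A ⊕ R)) (δ : Fin n → Bool) :
    fill side x (choice (OrderEmbedding.id _) δ) = x := by
  refine (fill_congr side _ _ _ fun j _ => ?_).trans (fill_none side _)
  simp only [choice]
  split_ifs with h1 h2
  · rfl
  · exact absurd ⟨⟨j, h1⟩, rfl⟩ h2
  · rfl

theorem fill_choice_choice {n k m : ℕ} (x : List (A ⊕ R)) (hx : slots x = n)
    (ι : Fin k ↪o Fin n) (κ : Fin m ↪o Fin k) (δ : Fin n → Bool) (δ' : Fin k → Bool) :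
    fill side (fill side x (choice ι δ)) (choice κ δ') =
      fill side x (choice (κ.trans ι) (Function.extend ι δ' δ)) := by
  refine (fill_fill side _ _ _).trans (fill_congr side _ _ _ fun j hj => ?_)
  rw [hx] at hj
  by_cases h : (⟨j, hj⟩ : Fin n) ∈ Set.range ι
  · obtain ⟨i, hi⟩ := h
    have h1 : choice ι δ j = none := by simp [choice, hj, ← hi]
    have h2 : Nat.count (fun i => choice ι δ i = none) j = i := by
      rw [count_choice ι δ j hj.le]
      have : (Finset.univ.filter fun i' : Fin k => (ι i' : ℕ) < j) = Finset.Iio i := by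
        ext i'
        have : j = (ι i : ℕ) := by simp [hi]
        simp [this]
      rw [this, Fin.card_Iio]
    have h3 : (⟨j, hj⟩ : Fin n) ∈ Set.range (κ.trans ι) ↔ i ∈ Set.range κ := by
      rw [← hi]
      constructor
      · rintro ⟨t, ht⟩
        exact ⟨t, ι.injective ht⟩
      · rintro ⟨t, rfl⟩
        exact ⟨t, rfl⟩
    rw [h1, h2]
    simp only [Option.elim, choice, dif_pos hj, dif_pos i.2, Fin.eta, h3]
    rw [← hi, ι.injective.extend_apply]
  · have h3 : (⟨j, hj⟩ : Fin n) ∉ Set.range (κ.trans ι) := by
      rintro ⟨t, ht⟩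
      exact h ⟨κ t, ht⟩
    simp only [choice, dif_pos hj, if_neg h, if_neg h3, Option.elim]
    rw [Function.extend_apply' _ _ _ h]

theorem word_inl (w : List A) : word side (w.map Sum.inl) = w := by
  induction w with
  | nil => rfl
  | cons l u ih => simpa [word] using ih

theorem slots_inl (w : List A) : slots (w.map (Sum.inl : A → A ⊕ R)) = 0 := by
  simp [slots, List.countP_eq_zero]

theorem eqv_word_inl (w : List A) : Eqv side (word side (w.map Sum.inl)) w := by
  rw [word_inl]
  exact Relation.EqvGen.refl _

/-- the Squier complex of the presentation with relations `side r false = side r true`, `r : R`,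
at the base word `w` -/
noncomputable def squier (w : List A) : CubeComplex where
  cell n := {x : List (A ⊕ R) // slots x = n ∧ Eqv side (word side x) w}
  res x ι δ := ⟨fill side x.1 (choice ι δ), slots_fill_choice side x.1 x.2.1 ι δ,
    (eqv_fill side _ _).trans _ _ _ x.2.2⟩
  res_congr x ι δ δ' h := Subtype.ext (congrArg (fill side x.1) (choice_congr ι δ δ' h))
  res_id x δ := Subtype.ext (fill_choice_id side x.1 δ)
  res_res x ι κ δ δ' := Subtype.ext (fill_choice_choice side x.1 x.2.1 ι κ δ δ')

/-- the base word as a vertex of the Squier complex -/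
def baseVertex (w : List A) : (squier side w).cell 0 :=
  ⟨w.map Sum.inl, slots_inl w, eqv_word_inl side w⟩

/-- the diagram group: the fundamental group of the Squier complex at the base word -/
abbrev DiagramGroup (w : List A) : Type := (squier side w).Pi1 (baseVertex side w)

end Squier

/-- the right-angled Artin group of a simplicial graph -/
abbrev RAAG {V : Type} (Γ : SimpleGraph V) : Type :=
  PresentedGroup {r : FreeGroup V | ∃ u v, Γ.Adj u v ∧
    r = FreeGroup.of u * FreeGroup.of v * (FreeGroup.of u)⁻¹ * (FreeGroup.of v)⁻¹}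

end Pool.Agent.MP_1e5511_al
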