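import Pool.Agent.MP_1e5511_al.Basic

set_option autoImplicit false

namespace Pool.Agent.MP_1e5511_al

namespace Pres

variable {P : Pres}

/-- least length of a path from `ω` that represents `g` -/
noncomputable def len (ω : List P.L) (g : P.U) : ℕ :=
  sInf {n | ∃ p ω', IsPath ω p ω' ∧ ev p = g ∧ p.length = n}

/-- `t` is the first step of a geodesic that represents `g` -/
def Front (ω : List P.L) (g : P.U) (t : P.DS) : Prop :=
  t.src = ω ∧ len t.tgt (t.ev⁻¹ * g) + 1 = len ω g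

/-- codes of lists of decorated letters -/
inductive Code (P : Pres) : Type
  | nil : Code P
  | cons (l : P.L) (o : Option (P.C × Bool × ℕ)) (ins rest : Code P) : Code P

/-- letters that remember the step that made them -/
structure DL (P : Pres) where
  l : P.L
  o : Option (P.C × Bool × ℕ)
  ins : Code P

def enc : List (DL P) → Code P
  | [] => Code.nil
  | x :: r => Code.cons x.l x.o x.ins (enc r)

theorem enc_inj : ∀ {u v : List (DL P)}, enc u = enc v → u = v
  | [], [], _ => rfl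
  | [], _ :: _, h => by simp [enc] at h
  | _ :: _, [], h => by simp [enc] at h
  | ⟨_, _, _⟩ :: _, ⟨_, _, _⟩ :: _, h => by
    simp only [enc, Code.cons.injEq] at h
    obtain ⟨rfl, rfl, rfl, h⟩ := h
    rw [enc_inj h]

def labs (σ : List (DL P)) : List P.L := σ.map DL.l

@[simp] theorem labs_append (u v : List (DL P)) : labs (u ++ v) = labs u ++ labs v := by
  simp [labs]

@[simp] theorem length_labs (u : List (DL P)) : (labs u).length = u.length := by simp [labs]

/-- outputs of the step `c, e` with inputs `ins` -/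
def outs (c : P.C) (e : Bool) (ins : List (DL P)) : List (DL P) :=
  (P.side c (!e)).mapIdx fun i l => ⟨l, some (c, e, i), enc ins⟩

@[simp] theorem labs_outs (c : P.C) (e : Bool) (ins : List (DL P)) :
    labs (outs c e ins) = P.side c (!e) := by
  apply List.ext_getElem <;> simp [labs, outs]

theorem outs_ne (c : P.C) (e : Bool) (ins : List (DL P)) : outs c e ins ≠ [] := by
  intro h
  have := labs_outs c e ins
  rw [h] at this
  exact P.ne _ _ this.symm

theorem outs_split {c : P.C} {e : Bool} {ins u v : List (DL P)} {x : DL P}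
    (h : outs c e ins = u ++ x :: v) : x.o = some (c, e, u.length) ∧ x.ins = enc ins := by
  have h1 : (outs c e ins)[u.length]? = some x := by rw [h]; simp
  simp only [outs, List.getElem?_mapIdx, Option.map_eq_some_iff] at h1
  obtain ⟨l, -, rfl⟩ := h1
  exact ⟨rfl, rfl⟩

theorem outs_inj {c : P.C} {e : Bool} {ins ins' : List (DL P)}
    (h : outs c e ins = outs c e ins') : ins = ins' := by
  obtain ⟨x, v, hx⟩ := List.exists_cons_of_ne_nil (outs_ne c e ins)
  exact enc_inj ((outs_split (u := []) hx).2.symm.trans (outs_split (u := []) (h ▸ hx)).2)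

/-- no step is applied to the outputs of its inverse -/
inductive WF : DL P → Prop
  | base (l : P.L) : WF ⟨l, none, Code.nil⟩
  | out (l : P.L) (c : P.C) (e : Bool) (i : ℕ) (ins : List (DL P)) (h₁ : ∀ x, x ∈ ins → WF x)
      (h₂ : labs ins = P.side c e) (h₃ : ¬ ∃ ins', ins = outs c (!e) ins') :
      WF ⟨l, some (c, e, i), enc ins⟩

theorem WF.of_outs {c : P.C} {e : Bool} {ins : List (DL P)} (h : ∀ x ∈ outs c e ins, WF x) :
    (∀ x ∈ ins, WF x) ∧ labs ins = P.side c e ∧ ¬ ∃ ins', ins = outs c (!e) ins' := by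
  obtain ⟨x, v, hx⟩ := List.exists_cons_of_ne_nil (outs_ne c e ins)
  obtain ⟨h1, h2⟩ := outs_split (u := []) hx
  have h3 := h x (by simp [hx])
  cases h3 with
  | base l => simp at h1
  | out l c' e' i ins' h₁ h₂ h₃ =>
    simp only [Option.some.injEq, Prod.mk.injEq] at h1
    obtain ⟨rfl, rfl, -⟩ := h1
    obtain rfl := enc_inj h2
    exact ⟨h₁, h₂, h₃⟩

theorem WF.outs {c : P.C} {e : Bool} {ins : List (DL P)} (h₁ : ∀ x ∈ ins, WF x)
    (h₂ : labs ins = P.side c e) (h₃ : ¬ ∃ ins', ins = outs c (!e) ins') :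
    ∀ x ∈ outs c e ins, WF x := by
  intro x hx
  simp only [Pres.outs, List.mem_mapIdx] at hx
  obtain ⟨i, hi, rfl⟩ := hx
  exact WF.out _ _ _ _ _ h₁ h₂ h₃

open Classical in
/-- the local effect of a step -/
noncomputable def loc (c : P.C) (e : Bool) (M : List (DL P)) : List (DL P) :=
  if h : ∃ ins, M = outs c (!e) ins then h.choose else outs c e M

theorem loc_outs (c : P.C) (e : Bool) (ins : List (DL P)) : loc c e (outs c (!e) ins) = ins := by
  have h : ∃ ins', outs c (!e) ins = outs c (!e) ins' := ⟨ins, rfl⟩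
  rw [loc, dif_pos h]
  exact (outs_inj h.choose_spec).symm

theorem loc_new {c : P.C} {e : Bool} {M : List (DL P)} (h : ¬ ∃ ins, M = outs c (!e) ins) :
    loc c e M = outs c e M := by rw [loc, dif_neg h]

theorem loc_spec {c : P.C} {e : Bool} {M : List (DL P)} (hM : ∀ x ∈ M, WF x)
    (hl : labs M = P.side c e) : (∀ x ∈ loc c e M, WF x) ∧ labs (loc c e M) = P.side c (!e) ∧
      loc c (!e) (loc c e M) = M := by
  by_cases h : ∃ ins, M = outs c (!e) ins
  · obtain ⟨ins, rfl⟩ := h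
    obtain ⟨h1, h2, h3⟩ := WF.of_outs hM
    rw [loc_outs]
    exact ⟨h1, h2, loc_new h3⟩
  · rw [loc_new h]
    refine ⟨WF.outs hM hl h, labs_outs _ _ _, ?_⟩
    simpa using loc_outs c (!e) M

/-- the effect of a step on decorated words -/
noncomputable def app (t : P.DS) (σ : List (DL P)) : List (DL P) :=
  σ.take t.a.length ++ loc t.c t.e ((σ.drop t.a.length).take (P.side t.c t.e).length) ++
    (σ.drop t.a.length).drop (P.side t.c t.e).length

theorem app_eq {t : P.DS} {A M B : List (DL P)} (hA : labs A = t.a)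
    (hM : labs M = P.side t.c t.e) : app t (A ++ M ++ B) = A ++ loc t.c t.e M ++ B := by
  simp [app, ← hA, ← hM]

theorem split_labs {σ : List (DL P)} {u v : List P.L} (h : labs σ = u ++ v) :
    ∃ A B, σ = A ++ B ∧ labs A = u ∧ labs B = v := List.map_eq_append_iff.1 h

theorem split_src {σ : List (DL P)} {t : P.DS} (h : labs σ = t.src) :
    ∃ A M B, σ = A ++ M ++ B ∧ labs A = t.a ∧ labs M = P.side t.c t.e ∧ labs B = t.b := by
  obtain ⟨X, B, rfl, h1, h2⟩ := split_labs h
  obtain ⟨A, M, rfl, h3, h4⟩ := split_labs h1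
  exact ⟨A, M, B, rfl, h3, h4, h2⟩

def AllWF (σ : List (DL P)) : Prop := ∀ x ∈ σ, WF x

@[simp] theorem allWF_append {u v : List (DL P)} : AllWF (u ++ v) ↔ AllWF u ∧ AllWF v := by
  simp [AllWF, or_imp, forall_and]

theorem app_spec {t : P.DS} {σ : List (DL P)} (hσ : AllWF σ) (h : labs σ = t.src) :
    AllWF (app t σ) ∧ labs (app t σ) = t.tgt ∧ app t.inv (app t σ) = σ := by
  obtain ⟨A, M, B, rfl, h1, h2, h3⟩ := split_src h
  simp only [allWF_append] at hσ
  obtain ⟨h4, h5, h6⟩ := loc_spec hσ.1.2 h2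
  rw [app_eq h1 h2]
  refine ⟨by simpa only [allWF_append] using ⟨⟨hσ.1.1, h4⟩, hσ.2⟩, by simp [DS.tgt, h1, h3, h5], ?_⟩
  rw [app_eq (t := t.inv) h1 h5]
  exact congrArg (fun x => A ++ x ++ B) h6

/-- the step `t` cancels the step that made its input -/
def Can (t : P.DS) (σ : List (DL P)) : Prop :=
  ∃ A ins B, σ = A ++ outs t.c (!t.e) ins ++ B ∧ labs A = t.a ∧ labs B = t.b

theorem Can.src {t : P.DS} {σ : List (DL P)} (h : Can t σ) : labs σ = t.src := by
  obtain ⟨A, ins, B, rfl, h1, h2⟩ := h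
  simp [DS.src, h1, h2]

theorem can_iff {t : P.DS} {A M B : List (DL P)} (hA : labs A = t.a)
    (hM : labs M = P.side t.c t.e) (hB : labs B = t.b) :
    Can t (A ++ M ++ B) ↔ ∃ ins, M = outs t.c (!t.e) ins := by
  constructor
  · rintro ⟨A', ins, B', h, h1, h2⟩
    have hl : A.length = A'.length := by rw [← length_labs, hA, ← h1, length_labs]
    have hl' : B.length = B'.length := by rw [← length_labs, hB, ← h2, length_labs]
    exact ⟨ins, (List.append_inj (List.append_inj' h hl').1 hl).2⟩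
  · rintro ⟨ins, rfl⟩
    exact ⟨A, ins, B, rfl, hA, hB⟩

theorem can_inv {t : P.DS} {σ : List (DL P)} (h : labs σ = t.src) (hn : ¬ Can t σ) :
    Can t.inv (app t σ) := by
  obtain ⟨A, M, B, rfl, h1, h2, h3⟩ := split_src h
  rw [can_iff h1 h2 h3] at hn
  rw [app_eq h1 h2, loc_new hn]
  exact ⟨A, M, B, by simp, h1, h3⟩

theorem par_spec {s t t' s' : P.DS} (hp : Par s t t' s') {σ : List (DL P)} (hσ : AllWF σ)
    (h : labs σ = s.src) :
    app t' (app s σ) = app s' (app t σ) ∧ (Can t σ ↔ Can t' (app s σ)) := by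
  have key : ∀ a c e m c' e' b (σ : List (DL P)), AllWF σ →
      labs σ = a ++ P.side c e ++ m ++ P.side c' e' ++ b →
      app ⟨a ++ P.side c (!e) ++ m, c', e', b⟩ (app ⟨a, c, e, m ++ P.side c' e' ++ b⟩ σ) =
        app ⟨a, c, e, m ++ P.side c' (!e') ++ b⟩ (app ⟨a ++ P.side c e ++ m, c', e', b⟩ σ) ∧
      (Can ⟨a ++ P.side c e ++ m, c', e', b⟩ σ ↔
        Can ⟨a ++ P.side c (!e) ++ m, c', e', b⟩ (app ⟨a, c, e, m ++ P.side c' e' ++ b⟩ σ)) ∧
      (Can ⟨a, c, e, m ++ P.side c' e' ++ b⟩ σ ↔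
        Can ⟨a, c, e, m ++ P.side c' (!e') ++ b⟩ (app ⟨a ++ P.side c e ++ m, c', e', b⟩ σ)) := by
    intro a c e m c' e' b σ hσ h
    obtain ⟨X, B, rfl, h1, hB⟩ := split_labs h
    obtain ⟨X, M', rfl, h1, hM'⟩ := split_labs h1
    obtain ⟨X, N, rfl, h1, hN⟩ := split_labs h1
    obtain ⟨A, M, rfl, hA, hM⟩ := split_labs h1
    simp only [allWF_append] at hσ
    have l1 := (loc_spec hσ.1.1.1.2 hM).2.1
    have l2 := (loc_spec hσ.1.2 hM').2.1
    have e1 : ∀ b' (Y : List (DL P)), app ⟨a, c, e, b'⟩ (A ++ M ++ N ++ Y ++ B) =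
        A ++ loc c e M ++ N ++ Y ++ B := fun b' Y => by
      simpa using app_eq (t := ⟨a, c, e, b'⟩) (B := N ++ Y ++ B) hA hM
    have e2 : ∀ (Y : List (DL P)) y, labs Y = y →
        app ⟨a ++ y ++ m, c', e', b⟩ (A ++ Y ++ N ++ M' ++ B) = A ++ Y ++ N ++ loc c' e' M' ++ B :=
      fun Y y hY => app_eq (t := ⟨a ++ y ++ m, c', e', b⟩) (by simp [hA, hY, hN]) hM'
    have c1 : ∀ (Y : List (DL P)) y, labs Y = y →
        (Can ⟨a, c, e, m ++ y ++ b⟩ (A ++ M ++ N ++ Y ++ B) ↔ ∃ ins, M = outs c (!e) ins) :=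
      fun Y y hY => by
        simpa using can_iff (t := ⟨a, c, e, m ++ y ++ b⟩) (B := N ++ Y ++ B) hA hM
          (by simp [hN, hY, hB])
    have c2 : ∀ (Y : List (DL P)) y, labs Y = y →
        (Can ⟨a ++ y ++ m, c', e', b⟩ (A ++ Y ++ N ++ M' ++ B) ↔ ∃ ins, M' = outs c' (!e') ins) :=
      fun Y y hY => can_iff (t := ⟨a ++ y ++ m, c', e', b⟩) (by simp [hA, hY, hN]) hM' hB
    rw [e1, e2 _ _ l1, e2 _ _ hM, e1, c2 _ _ hM, c2 _ _ l1, c1 _ _ hM', c1 _ _ l2]
    exact ⟨rfl, Iff.rfl, Iff.rfl⟩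
  cases hp with
  | left a c e m c' e' b =>
    have := key a c e m c' e' b σ hσ (by simpa [DS.src] using h)
    exact ⟨this.1, this.2.1⟩
  | right a c e m c' e' b =>
    have := key a c e m c' e' b σ hσ (by simpa [DS.src] using h)
    exact ⟨this.1.symm, this.2.2⟩

theorem can_can {s t : P.DS} {σ : List (DL P)} (hs : Can s σ) (ht : Can t σ) :
    s = t ∨ ∃ t' s', Par s t t' s' := by
  have key : ∀ (s t : P.DS) (A ins B X ins' B' : List (DL P)), labs A = s.a → labs B = s.b →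
      labs (A ++ X) = t.a → labs B' = t.b →
      outs s.c (!s.e) ins ++ B = X ++ (outs t.c (!t.e) ins' ++ B') →
      s = t ∨ ∃ t' s', Par s t t' s' := by
    rintro ⟨a, c, e, b⟩ ⟨a', c', e', b'⟩ A ins B X ins' B' rfl rfl rfl rfl h
    simp only at h
    rcases List.append_eq_append_iff.1 h with ⟨N, rfl, rfl⟩ | ⟨Y, h1, h2⟩
    · exact Or.inr ⟨_, _, by simpa using Par.left (P := P) (labs A) c e (labs N) c' e' (labs B')⟩
    · cases Y with
      | nil =>
        obtain rfl : outs c (!e) ins = X := by simpa using h1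
        obtain rfl : outs c' (!e') ins' ++ B' = B := by simpa using h2
        exact Or.inr ⟨_, _, by simpa using Par.left (P := P) (labs A) c e [] c' e' (labs B')⟩
      | cons y Y =>
        obtain ⟨x, v, hx⟩ := List.exists_cons_of_ne_nil (outs_ne c' (!e') ins')
        obtain rfl : x = y := by rw [hx] at h2; exact (List.cons.inj h2).1
        obtain ⟨h3, h4⟩ := outs_split h1
        obtain ⟨h5, h6⟩ := outs_split (u := []) hx
        rw [h5] at h3
        simp only [Option.some.injEq, Prod.mk.injEq, List.length_nil, Bool.not_eq_eq_eq_not,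
          Bool.not_not] at h3
        obtain ⟨rfl, rfl, h7⟩ := h3
        obtain rfl : X = [] := List.length_eq_zero_iff.1 h7.symm
        obtain rfl := enc_inj (h4.symm.trans h6)
        obtain rfl : B = B' := by simpa using h
        simp
  obtain ⟨A, ins, B, rfl, h1, h2⟩ := hs
  obtain ⟨A', ins', B', h, h3, h4⟩ := ht
  rw [List.append_assoc, List.append_assoc] at h
  rcases List.append_eq_append_iff.1 h with ⟨X, rfl, h5⟩ | ⟨X, rfl, h5⟩
  · exact key s t A ins B X ins' B' h1 h2 h3 h4 h5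
  · rcases key t s A' ins' B' X ins B h3 h4 h1 h2 h5 with h6 | ⟨x, y, h6⟩
    · exact Or.inl h6.symm
    · exact Or.inr ⟨y, x, h6.symm⟩

/-- the undecorated word -/
def st₀ (ω : List P.L) : List (DL P) := ω.map fun l => ⟨l, none, Code.nil⟩

theorem labs_st₀ (ω : List P.L) : labs (st₀ ω) = ω := by simp [labs, st₀, Function.comp_def]

theorem not_can_st₀ (t : P.DS) (ω : List P.L) : ¬ Can t (st₀ ω) := by
  rintro ⟨A, ins, B, h, -⟩
  obtain ⟨x, v, hx⟩ := List.exists_cons_of_ne_nil (outs_ne t.c (!t.e) ins)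
  have h1 : x ∈ st₀ ω := by rw [h, hx]; simp
  obtain ⟨l, -, rfl⟩ := List.mem_map.1 h1
  simpa using (outs_split (u := []) hx).1

/-- states that are reached by `n` steps without cancellation -/
inductive Built (ω : List P.L) : ℕ → P.U → List (DL P) → Prop
  | nil : Built ω 0 1 (st₀ ω)
  | snoc {n : ℕ} {g : P.U} {σ : List (DL P)} (t : P.DS) (h : Built ω n g σ) (h₁ : labs σ = t.src)
      (h₂ : ¬ Can t σ) : Built ω (n + 1) (g * t.ev) (app t σ)

theorem Built.spec {ω : List P.L} {n : ℕ} {g : P.U} {σ : List (DL P)} (h : Built ω n g σ) :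
    AllWF σ ∧ ∃ p, IsPath ω p (labs σ) ∧ ev p = g ∧ p.length = n := by
  induction h with
  | nil =>
    refine ⟨fun x hx => ?_, [], (labs_st₀ ω).symm, rfl, rfl⟩
    obtain ⟨l, -, rfl⟩ := List.mem_map.1 hx
    exact WF.base l
  | snoc t h h₁ h₂ ih =>
    obtain ⟨h1, p, h2, rfl, rfl⟩ := ih
    obtain ⟨h3, h4, -⟩ := app_spec h1 h₁
    exact ⟨h3, p ++ [t], h2.append (by simp [h₁, h4]), by simp, by simp⟩

theorem Built.cancel {ω : List P.L} {n : ℕ} {g : P.U} {σ : List (DL P)} (h : Built ω n g σ)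
    {t : P.DS} (ht : Can t σ) : ∃ m, n = m + 1 ∧ Built ω m (g * t.ev) (app t σ) := by
  induction h generalizing t with
  | nil => exact absurd ht (not_can_st₀ t ω)
  | @snoc n g σ s h h₁ h₂ ih =>
    refine ⟨n, rfl, ?_⟩
    have hw := h.spec.1
    obtain ⟨a1, a2, a3⟩ := app_spec hw h₁
    rcases can_can (can_inv h₁ h₂) ht with rfl | ⟨t', s', hp⟩
    · rw [a3]; simpa using h
    · have b1 := par_spec hp a1 a2
      rw [a3] at b1
      have hc : Can t' σ := b1.2.1 ht
      obtain ⟨m, rfl, hm⟩ := ih hc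
      have hq : Par s t' t s'.inv := by simpa using hp.inv_left
      have b2 := par_spec hq hw h₁
      have b3 := par_spec hq.symm hw hc.src
      rw [b2.1, mul_assoc, hq.ev_eq, ← mul_assoc]
      exact hm.snoc _ ((app_spec hw hc.src).2.1.trans hq.src_s'.symm) fun h => h₂ (b3.2.2 h)

theorem Built.unique {ω : List P.L} {n m : ℕ} {g g' : P.U} {σ : List (DL P)} (h : Built ω n g σ)
    (h' : Built ω m g' σ) : n = m := by
  induction h generalizing m g' with
  | nil =>
    generalize hσ : st₀ ω = σ at h'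
    cases h' with
    | nil => rfl
    | snoc t h h₁ h₂ => exact absurd (hσ ▸ can_inv h₁ h₂) (not_can_st₀ _ _)
  | snoc t h h₁ h₂ ih =>
    obtain ⟨k, rfl, hk⟩ := h'.cancel (can_inv h₁ h₂)
    rw [(app_spec h.spec.1 h₁).2.2] at hk
    rw [ih hk]

theorem Built.act {ω : List P.L} {q : List P.DS} {u : List P.L} {n : ℕ} {g : P.U}
    {σ : List (DL P)} (h : Built ω n g σ) (hq : IsPath (labs σ) q u) :
    ∃ m, m ≤ n + q.length ∧ Built ω m (g * ev q) (act app q σ) ∧ labs (act app q σ) = u := by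
  induction q generalizing n g σ with
  | nil => exact ⟨n, le_rfl, by simpa using h, hq⟩
  | cons t q ih =>
    have h1 := (app_spec h.spec.1 hq.1.symm).2.1
    by_cases hc : Can t σ
    · obtain ⟨m, rfl, hm⟩ := h.cancel hc
      obtain ⟨k, hk, h2⟩ := ih hm (h1 ▸ hq.2)
      exact ⟨k, by simp only [List.length_cons]; omega, by simpa [mul_assoc] using h2⟩
    · obtain ⟨k, hk, h2⟩ := ih (h.snoc t hq.1.symm hc) (h1 ▸ hq.2)
      exact ⟨k, by simp only [List.length_cons]; omega, by simpa [mul_assoc] using h2⟩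

theorem act_app_eq {ω ω' : List P.L} {p q : List P.DS} (hp : IsPath ω p ω') (hq : IsPath ω q ω')
    (he : ev p = ev q) : act app p (st₀ ω) = act app q (st₀ ω) := by
  classical
  let f : P.DS → {σ : List (DL P) // AllWF σ} → {σ : List (DL P) // AllWF σ} := fun t σ =>
    if h : labs σ.1 = t.src then ⟨app t σ.1, (app_spec σ.2 h).1⟩ else σ
  have f1 : ∀ t σ, labs σ.1 = t.src → (f t σ).1 = app t σ.1 := fun t σ h => by simp [f, h]
  have f2 : ∀ (p : List P.DS) σ u, IsPath (labs σ.1) p u → (act f p σ).1 = act app p σ.1 := by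
    intro p
    induction p with
    | nil => intros; rfl
    | cons t p ih =>
      intro σ u h
      rw [act_cons, act_cons, ih _ u (by
        rw [f1 _ _ h.1.symm, (app_spec σ.2 h.1.symm).2.1]; exact h.2), f1 _ _ h.1.symm]
  have := act_eq (fun σ : {σ : List (DL P) // AllWF σ} => labs σ.1) f (fun t σ h => by
      obtain ⟨-, h1, h2⟩ := app_spec σ.2 h
      rw [← f1 t σ h] at h1
      exact ⟨h1, Subtype.ext (by rw [f1 _ _ h1, f1 _ _ h, h2])⟩)
    (fun s t t' s' σ hp h => by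
      have h' := h.trans hp.src_eq
      refine Subtype.ext ?_
      rw [f1, f1 s', f1 _ _ h, f1 _ _ h', (par_spec hp σ.2 h).1]
      · rw [f1 _ _ h', (app_spec σ.2 h').2.1, hp.src_s']
      · rw [f1 _ _ h, (app_spec σ.2 h).2.1, hp.src_t'])
    hp hq he ⟨st₀ ω, (Built.nil (ω := ω)).spec.1⟩ (labs_st₀ ω)
  have h1 := congrArg Subtype.val this
  rwa [f2 p _ ω' (by rwa [labs_st₀]), f2 q _ ω' (by rwa [labs_st₀])] at h1

/-- `σ` is the state of the morphism `g` -/
def State (ω : List P.L) (g : P.U) (σ : List (DL P)) : Prop :=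
  ∃ p, IsPath ω p (labs σ) ∧ ev p = g ∧ σ = act app p (st₀ ω)

theorem State.built {ω : List P.L} {g : P.U} {σ : List (DL P)} (h : State ω g σ) :
    Built ω (len ω g) g σ := by
  obtain ⟨p, hp, rfl, hσ⟩ := h
  obtain ⟨n, -, hn, -⟩ := (Built.nil (ω := ω)).act (by rwa [labs_st₀])
  rw [one_mul, ← hσ] at hn
  obtain ⟨-, r, hr, hr', hl⟩ := hn.spec
  have h1 : len ω (ev p) ∈ {n | ∃ q ω', IsPath ω q ω' ∧ ev q = ev p ∧ q.length = n} :=
    Nat.sInf_mem ⟨_, p, _, hp, rfl, rfl⟩
  obtain ⟨q, ω', hq, he, hq'⟩ := h1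
  obtain rfl : ω' = labs σ := hq.conn.unique (he ▸ hp.conn)
  obtain ⟨m, hm, h2, -⟩ := (Built.nil (ω := ω)).act (q := q) (by rwa [labs_st₀])
  rw [act_app_eq hq hp he, ← hσ] at h2
  have h3 : len ω (ev p) ≤ n := Nat.sInf_le ⟨r, _, hr, hr', hl⟩
  have := hn.unique h2
  rwa [show len ω (ev p) = n by omega]

theorem Conn.state {ω ω' : List P.L} {g : P.U} (h : Conn ω g ω') :
    ∃ σ, State ω g σ ∧ labs σ = ω' := by
  obtain ⟨p, hp, rfl⟩ := h
  obtain ⟨n, -, -, hn⟩ := (Built.nil (ω := ω)).act (q := p) (by rwa [labs_st₀])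
  exact ⟨_, ⟨p, hn.symm ▸ hp, rfl, rfl⟩, hn⟩

theorem State.step {ω : List P.L} {g : P.U} {σ : List (DL P)} (h : State ω g σ) {t : P.DS}
    (ht : labs σ = t.src) : State ω (g * t.ev) (app t σ) := by
  have h1 := (app_spec h.built.spec.1 ht).2.1
  obtain ⟨p, hp, rfl, hσ⟩ := h
  exact ⟨p ++ [t], hp.append (by simp [ht, h1]), by simp, by simp [← hσ]⟩

theorem evt_len_inv {ω ω' : List P.L} {g : P.U} (h : Conn ω g ω') : len ω' g⁻¹ = len ω g := by
  have key : ∀ {ω ω' : List P.L} {g : P.U}, Conn ω g ω' → len ω' g⁻¹ ≤ len ω g := by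
    intro ω ω' g h
    have h1 : len ω g ∈ {n | ∃ q u, IsPath ω q u ∧ ev q = g ∧ q.length = n} := by
      obtain ⟨p, hp, rfl⟩ := h
      exact Nat.sInf_mem ⟨_, p, _, hp, rfl, rfl⟩
    obtain ⟨q, u, hq, rfl, h2⟩ := h1
    obtain rfl := h.unique hq.conn
    exact Nat.sInf_le ⟨pinv q, _, hq.pinv, by simp, by simpa using h2⟩
  exact le_antisymm (key h) (by simpa using key h.symm)

theorem State.len_step {ω ω' : List P.L} {g : P.U} (h : Conn ω g ω') {σ : List (DL P)}
    (hσ : State ω' g⁻¹ σ) (hl : labs σ = ω) {t : P.DS} (ht : t.src = ω) :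
    (Can t σ → len t.tgt (t.ev⁻¹ * g) + 1 = len ω g) ∧
      (¬ Can t σ → len t.tgt (t.ev⁻¹ * g) = len ω g + 1) := by
  have h1 : Conn t.tgt (t.ev⁻¹ * g) ω' := (Conn.step t).symm.trans (ht ▸ h)
  have h2 := (hσ.step (hl.trans ht.symm)).built
  rw [← evt_len_inv h1, ← evt_len_inv h, mul_inv_rev, inv_inv]
  refine ⟨fun hc => ?_, fun hc => ?_⟩
  · obtain ⟨m, h3, h4⟩ := hσ.built.cancel hc
    rw [h3, h2.unique h4]
  · exact h2.unique (hσ.built.snoc t (hl.trans ht.symm) hc)

theorem State.front {ω ω' : List P.L} {g : P.U} (h : Conn ω g ω') {σ : List (DL P)}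
    (hσ : State ω' g⁻¹ σ) (hl : labs σ = ω) {t : P.DS} : Front ω g t ↔ Can t σ := by
  constructor
  · rintro ⟨h1, h2⟩
    by_contra hc
    have := (hσ.len_step h hl h1).2 hc
    omega
  · intro hc
    have h1 := hc.src.symm.trans hl
    exact ⟨h1, (hσ.len_step h hl h1).1 hc⟩

theorem len_step {ω ω' : List P.L} {g : P.U} (h : Conn ω g ω') {t : P.DS} (ht : t.src = ω) :
    len t.tgt (t.ev⁻¹ * g) + 1 = len ω g ∨ len t.tgt (t.ev⁻¹ * g) = len ω g + 1 := by
  obtain ⟨σ, hσ, hl⟩ := h.symm.state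
  by_cases hc : Can t σ
  · exact Or.inl ((hσ.len_step h hl ht).1 hc)
  · exact Or.inr ((hσ.len_step h hl ht).2 hc)

theorem Front.eq_or_par {ω ω' : List P.L} {g : P.U} (h : Conn ω g ω') {s t : P.DS}
    (hs : Front ω g s) (ht : Front ω g t) : s = t ∨ ∃ t' s', Par s t t' s' := by
  obtain ⟨σ, hσ, hl⟩ := h.symm.state
  exact can_can ((hσ.front h hl).1 hs) ((hσ.front h hl).1 ht)

theorem Front.par {ω ω' : List P.L} {g : P.U} (h : Conn ω g ω') {s t t' s' : P.DS}
    (hs : s.src = ω) (hp : Par s t t' s') : Front ω g t ↔ Front s.tgt (s.ev⁻¹ * g) t' := by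
  obtain ⟨σ, hσ, hl⟩ := h.symm.state
  have h1 : Conn s.tgt (s.ev⁻¹ * g) ω' := (Conn.step s).symm.trans (hs ▸ h)
  have h2 := hl.trans hs.symm
  have hw := hσ.built.spec.1
  rw [hσ.front h hl, (par_spec hp hw h2).2]
  exact (State.front h1 (by simpa using hσ.step h2) (app_spec hw h2).2.1).symm

end Pres

end Pool.Agent.MP_1e5511_al
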