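import Pool.Agent.MP_1e5511_al.Event

set_option autoImplicit false

namespace Pool.Agent.MP_1e5511_al

namespace Pres

variable {P : Pres}

/-- geodesic paths -/
def Geo (ω : List P.L) (p : List P.DS) (ω' : List P.L) : Prop :=
  IsPath ω p ω' ∧ p.length = len ω (ev p)

theorem IsPath.len_le {ω ω' : List P.L} {p : List P.DS} (h : IsPath ω p ω') :
    len ω (ev p) ≤ p.length := by
  exact Nat.sInf_le ⟨p, ω', h, rfl, rfl⟩

theorem Conn.exists_geo {ω ω' : List P.L} {g : P.U} (h : Conn ω g ω') :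
    ∃ p, Geo ω p ω' ∧ ev p = g := by
  have hne : {n | ∃ p ω', IsPath ω p ω' ∧ ev p = g ∧ p.length = n}.Nonempty := by
    obtain ⟨p, hp, he⟩ := h
    exact ⟨_, p, ω', hp, he, rfl⟩
  obtain ⟨p, u, hp, rfl, hl⟩ := Nat.sInf_mem hne
  obtain rfl := hp.conn.unique h
  exact ⟨p, ⟨hp, hl⟩, rfl⟩

theorem Conn.eq_of_len {ω ω' : List P.L} {g : P.U} (h : Conn ω g ω') (h0 : len ω g = 0) :
    g = 1 ∧ ω = ω' := by
  obtain ⟨p, hp, rfl⟩ := h.exists_geo
  obtain rfl := List.length_eq_zero_iff.1 (hp.2.trans h0)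
  exact ⟨rfl, hp.1⟩

@[simp] theorem len_one (ω : List P.L) : len ω (1 : P.U) = 0 := by
  exact Nat.le_zero.1 (IsPath.len_le (p := []) (ω := ω) rfl)

theorem Conn.len_inv {ω ω' : List P.L} {g : P.U} (h : Conn ω g ω') : len ω' g⁻¹ = len ω g := by
  have key : ∀ {ω ω' : List P.L} {g : P.U}, Conn ω g ω' → len ω' g⁻¹ ≤ len ω g := by
    intro ω ω' g h
    obtain ⟨p, hp, rfl⟩ := h.exists_geo
    have := hp.1.pinv.len_le
    rwa [ev_pinv, length_pinv, hp.2] at this
  exact le_antisymm (key h) (by simpa using key h.symm)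

theorem Conn.len_mul_le {ω u ω' : List P.L} {g g' : P.U} (h : Conn ω g u) (h' : Conn u g' ω') :
    len ω (g * g') ≤ len ω g + len u g' := by
  obtain ⟨p, hp, rfl⟩ := h.exists_geo
  obtain ⟨q, hq, rfl⟩ := h'.exists_geo
  have := (hp.1.append hq.1).len_le
  rwa [ev_append, List.length_append, hp.2, hq.2] at this

theorem Geo.pinv {ω ω' : List P.L} {p : List P.DS} (h : Geo ω p ω') : Geo ω' (pinv p) ω := by
  exact ⟨h.1.pinv, by rw [length_pinv, ev_pinv, h.1.conn.len_inv, h.2]⟩

theorem geo_split {ω u ω' : List P.L} {p q : List P.DS} (h : Geo ω (p ++ q) ω')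
    (hp : IsPath ω p u) : Geo ω p u ∧ Geo u q ω' := by
  obtain ⟨u', h1, hq⟩ := isPath_append.1 h.1
  obtain rfl := hp.unique h1
  have h2 := hp.conn.len_mul_le hq.conn
  have h3 := h.2
  have h4 := hp.len_le
  have h5 := hq.len_le
  rw [ev_append, List.length_append] at h3
  exact ⟨⟨hp, by omega⟩, hq, by omega⟩

theorem Geo.left {ω u ω' : List P.L} {p q : List P.DS} (h : Geo ω (p ++ q) ω')
    (hp : IsPath ω p u) : Geo ω p u := by
  exact (geo_split h hp).1

theorem Geo.right {ω u ω' : List P.L} {p q : List P.DS} (h : Geo ω (p ++ q) ω')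
    (hp : IsPath ω p u) : Geo u q ω' := by
  exact (geo_split h hp).2

theorem geo_tail {ω ω' : List P.L} {t : P.DS} {p : List P.DS} (h : Geo ω (t :: p) ω') :
    Geo t.tgt p ω' :=
  Geo.right (p := [t]) h ⟨h.1.1, rfl⟩

theorem geo_conn {ω ω' : List P.L} {g : P.U} (h : Conn ω g ω') {t : P.DS} (ht : t.src = ω) :
    Conn t.tgt (t.ev⁻¹ * g) ω' :=
  (Conn.step t).symm.trans (ht ▸ h)

theorem geo_cons {ω ω' : List P.L} {t : P.DS} {p : List P.DS} (h : Geo t.tgt p ω')
    (ht : Front ω (ev (t :: p)) t) : Geo ω (t :: p) ω' := by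
  refine ⟨⟨ht.1, h.1⟩, ?_⟩
  rw [← ht.2, ev_cons, inv_mul_cancel_left, ← h.2, List.length_cons]

theorem geo_front_inv {ω ω' : List P.L} {g : P.U} (h : Conn ω g ω') {t : P.DS} (hs : t.src = ω)
    (ht : ¬ Front ω g t) : Front t.tgt (t.ev⁻¹ * g) t.inv := by
  refine ⟨rfl, ?_⟩
  rw [DS.tgt_inv, hs, DS.ev_inv, inv_inv, mul_inv_cancel_left]
  exact ((len_step h hs).resolve_left fun h' => ht ⟨hs, h'⟩).symm

theorem Geo.front {ω ω' : List P.L} {t : P.DS} {p : List P.DS} (h : Geo ω (t :: p) ω') :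
    Front ω (ev (t :: p)) t := by
  refine ⟨h.1.1, ?_⟩
  rw [← h.2, ev_cons, inv_mul_cancel_left, ← (geo_tail h).2, List.length_cons]

/-- a front step starts a geodesic -/
theorem Front.exists_geo {ω ω' : List P.L} {g : P.U} (h : Conn ω g ω') {t : P.DS}
    (ht : Front ω g t) : ∃ p, Geo ω (t :: p) ω' ∧ ev (t :: p) = g := by
  obtain ⟨p, hp, he⟩ := (geo_conn h ht.1).exists_geo
  have h1 : ev (t :: p) = g := by rw [ev_cons, he, mul_inv_cancel_left]
  exact ⟨p, geo_cons hp (h1 ▸ ht), h1⟩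

/-- two geodesics that represent the same morphism differ by moves across squares -/
theorem Geo.swap_induction {R : List P.DS → List P.DS → Prop} (refl : ∀ p, R p p)
    (trans : ∀ p q r, R p q → R q r → R p r) (cons : ∀ t p q, R p q → R (t :: p) (t :: q))
    (swap : ∀ s t t' s' r, Par s t t' s' → R (s :: t' :: r) (t :: s' :: r))
    {ω ω' ω'' : List P.L} {p q : List P.DS} (hp : Geo ω p ω') (hq : Geo ω q ω'')
    (he : ev p = ev q) : R p q := by
  obtain ⟨n, hn⟩ : ∃ n, p.length = n := ⟨_, rfl⟩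
  induction n generalizing ω ω' ω'' p q with
  | zero =>
    have h1 : q.length = 0 := by rw [hq.2, ← he, ← hp.2, hn]
    rw [List.length_eq_zero_iff.1 hn, List.length_eq_zero_iff.1 h1]
    exact refl _
  | succ n ih =>
    have h1 : q.length = n + 1 := by rw [hq.2, ← he, ← hp.2, hn]
    obtain ⟨s, p, rfl⟩ := List.exists_cons_of_length_eq_add_one hn
    obtain ⟨t, q, rfl⟩ := List.exists_cons_of_length_eq_add_one h1
    have hn' : p.length = n := by simpa using hn
    have h1' : q.length = n := by simpa using h1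
    have ht := hq.front
    rw [← he] at ht
    rcases Front.eq_or_par hp.1.conn hp.front ht with rfl | ⟨t', s', hpar⟩
    · exact cons _ _ _ (ih (geo_tail hp) (geo_tail hq) (by simpa using he) hn')
    · have h2 := (Front.par hp.1.conn hp.1.1 hpar).1 ht
      rw [ev_cons, inv_mul_cancel_left] at h2
      obtain ⟨r, hr, her⟩ := Front.exists_geo hp.1.2.conn h2
      have h3 : ev (s' :: r) = ev q := by
        apply mul_left_cancel (a := t.ev)
        rw [← ev_cons t q, ← he, ev_cons, ev_cons, ← her, ev_cons, ← mul_assoc, ← mul_assoc,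
          hpar.ev_eq]
      have h4 : (s' :: r).length = n := by
        rw [← hn', (geo_tail hp).2, ← her, ← hr.2]; rfl
      have h5 : Geo t.tgt (s' :: r) ω' :=
        ⟨⟨hpar.src_s', hpar.tgt_eq ▸ hr.1.2⟩, by rw [h3, ← (geo_tail hq).2, h4, h1']⟩
      exact trans _ _ _ (cons _ _ _ (ih (geo_tail hp) hr her.symm hn'))
        (trans _ _ _ (swap _ _ _ _ r hpar) (cons _ _ _ (ih h5 (geo_tail hq) h3 h4)))

/-- every path is turned into a geodesic by moves across squares and cancellations -/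
theorem IsPath.reduce {R : List P.DS → List P.DS → Prop} (refl : ∀ p, R p p)
    (trans : ∀ p q r, R p q → R q r → R p r) (cons : ∀ t p q, R p q → R (t :: p) (t :: q))
    (swap : ∀ s t t' s' r, Par s t t' s' → R (s :: t' :: r) (t :: s' :: r))
    (cancel : ∀ t r, R (t :: t.inv :: r) r)
    {ω ω' ω'' : List P.L} {p q : List P.DS} (hp : IsPath ω p ω') (hq : Geo ω q ω'')
    (he : ev p = ev q) : R p q := by
  induction p generalizing ω ω'' q with
  | nil => exact Geo.swap_induction refl trans cons swap ⟨hp, by simp⟩ hq he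
  | cons t p ih =>
    by_cases ht : Front ω (ev (t :: p)) t
    · obtain ⟨r, hr, her⟩ := Front.exists_geo hp.conn ht
      exact trans _ _ _ (cons _ _ _ (ih hp.2 (geo_tail hr) (by simpa using her.symm)))
        (Geo.swap_induction refl trans cons swap hr hq (her.trans he))
    · have h1 := geo_front_inv hp.conn hp.1 ht
      rw [ev_cons, inv_mul_cancel_left] at h1
      obtain ⟨r, hr, her⟩ := Front.exists_geo hp.2.conn h1
      have h2 := geo_tail hr
      rw [DS.tgt_inv, hp.1] at h2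
      refine trans _ _ _ (cons _ _ _ (ih hp.2 hr her.symm)) (trans _ _ _ (cancel t r)
        (Geo.swap_induction refl trans cons swap h2 hq ?_))
      rw [← he, ev_cons, ← her, ev_cons, DS.ev_inv, mul_inv_cancel_left]

theorem geo_par {s t t' s' : P.DS} (h : Par s t t' s') :
    (∃ m, t.a = s.a ++ P.side s.c s.e ++ m ∧ t' = ⟨s.a ++ P.side s.c (!s.e) ++ m, t.c, t.e, t.b⟩ ∧
      s' = ⟨s.a, s.c, s.e, m ++ P.side t.c (!t.e) ++ t.b⟩) ∨
    ∃ m, s.a = t.a ++ P.side t.c t.e ++ m ∧ s' = ⟨t.a ++ P.side t.c (!t.e) ++ m, s.c, s.e, s.b⟩ ∧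
      t' = ⟨t.a, t.c, t.e, m ++ P.side s.c (!s.e) ++ s.b⟩ := by
  cases h with
  | left a c e m c' e' b => exact Or.inl ⟨m, rfl, rfl, rfl⟩
  | right a c e m c' e' b => exact Or.inr ⟨m, rfl, rfl, rfl⟩

theorem Par.unique {s t t' s' x y : P.DS} (h : Par s t t' s') (h' : Par s t x y) :
    x = t' ∧ y = s' := by
  have hl : ∀ c e, 0 < (P.side c e).length := fun c e => List.length_pos_iff.2 (P.ne c e)
  rcases geo_par h with ⟨m, h1, h2, h3⟩ | ⟨m, h1, h2, h3⟩ <;>
    rcases geo_par h' with ⟨m', h1', h2', h3'⟩ | ⟨m', h1', h2', h3'⟩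
  · obtain rfl : m = m' := List.append_cancel_left (h1.symm.trans h1')
    exact ⟨h2'.trans h2.symm, h3'.trans h3.symm⟩
  · have e1 := congrArg List.length h1
    have e2 := congrArg List.length h1'
    have := hl s.c s.e
    simp only [List.length_append] at e1 e2
    omega
  · have e1 := congrArg List.length h1
    have e2 := congrArg List.length h1'
    have := hl s.c s.e
    simp only [List.length_append] at e1 e2
    omega
  · obtain rfl : m = m' := List.append_cancel_left (h1.symm.trans h1')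
    exact ⟨h3'.trans h3.symm, h2'.trans h2.symm⟩

/-- properties of steps that only depend on the hyperplane -/
def WallInv (Q : P.DS → Prop) : Prop :=
  (∀ t, Q t → Q t.inv) ∧ ∀ s t t' s', Par s t t' s' → Q t → Q t'

/-- properties of steps that define a locally convex subcomplex -/
def SqClosed (Q : P.DS → Prop) : Prop :=
  (∀ t, Q t → Q t.inv) ∧ ∀ s t t' s', Par s t t' s' → Q s → Q t → Q t'

theorem wallInv_cell (Z : P.C → Prop) : WallInv fun t : P.DS => Z t.c :=
  ⟨fun _ h => h, fun _ _ _ _ h ht => show Z _ from h.c_eq ▸ ht⟩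

theorem WallInv.not {Q : P.DS → Prop} (h : WallInv Q) : WallInv fun t => ¬ Q t :=
  ⟨fun t ht h' => ht (by simpa using h.1 _ h'), fun s t t' s' hp ht h' =>
    ht (h.2 _ _ _ _ hp.inv_left h')⟩

theorem WallInv.and {Q Q' : P.DS → Prop} (h : WallInv Q) (h' : WallInv Q') :
    WallInv fun t => Q t ∧ Q' t :=
  ⟨fun t ht => ⟨h.1 t ht.1, h'.1 t ht.2⟩, fun s t t' s' hp ht =>
    ⟨h.2 s t t' s' hp ht.1, h'.2 s t t' s' hp ht.2⟩⟩

theorem WallInv.sqClosed {Q : P.DS → Prop} (h : WallInv Q) : SqClosed Q :=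
  ⟨h.1, fun s t t' s' hp _ ht => h.2 s t t' s' hp ht⟩

/-- convexity: if a morphism has a path made of `Q`-steps, all its geodesics are made of
`Q`-steps -/
theorem SqClosed.geo {Q : P.DS → Prop} (hQ : SqClosed Q) {ω ω' ω'' : List P.L}
    {p q : List P.DS} (hp : IsPath ω p ω') (hpQ : ∀ t ∈ p, Q t) (hq : Geo ω q ω'')
    (he : ev q = ev p) : ∀ t ∈ q, Q t := by
  refine IsPath.reduce (R := fun p q => (∀ t ∈ p, Q t) → ∀ t ∈ q, Q t) (fun _ h => h)
    (fun _ _ _ h h' h'' => h' (h h'')) ?_ ?_ ?_ hp hq he.symm hpQ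
  · intro t p q h h'
    rw [List.forall_mem_cons] at h' ⊢
    exact ⟨h'.1, h h'.2⟩
  · intro s t t' s' r h h'
    simp only [List.forall_mem_cons] at h' ⊢
    have ht : Q t := hQ.2 _ _ _ _ h.inv_left (hQ.1 s h'.1) h'.2.1
    exact ⟨ht, hQ.2 _ _ _ _ h.symm ht h'.1, h'.2.2⟩
  · intro t r h
    simp only [List.forall_mem_cons] at h
    exact h.2.2

theorem SqClosed.front {Q : P.DS → Prop} (hQ : SqClosed Q) {ω ω' : List P.L}
    {p : List P.DS} (hp : IsPath ω p ω') (hpQ : ∀ t ∈ p, Q t) {t : P.DS}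
    (ht : Front ω (ev p) t) : Q t := by
  obtain ⟨r, hr, he⟩ := Front.exists_geo hp.conn ht
  exact hQ.geo hp hpQ hr he t (by simp)

open Classical in
/-- number of `Q`-steps -/
noncomputable def num (Q : P.DS → Prop) (p : List P.DS) : ℕ := p.countP fun t => decide (Q t)

@[simp] theorem num_nil (Q : P.DS → Prop) : num Q [] = 0 := rfl
@[simp] theorem num_append (Q : P.DS → Prop) (p q : List P.DS) :
    num Q (p ++ q) = num Q p + num Q q := by simp [num]
theorem num_cons_pos {Q : P.DS → Prop} {t : P.DS} (h : Q t) (p : List P.DS) :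
    num Q (t :: p) = num Q p + 1 := by simp [num, h]
theorem num_cons_neg {Q : P.DS → Prop} {t : P.DS} (h : ¬ Q t) (p : List P.DS) :
    num Q (t :: p) = num Q p := by simp [num, h]
theorem num_eq_zero {Q : P.DS → Prop} {p : List P.DS} : num Q p = 0 ↔ ∀ t ∈ p, ¬ Q t := by
  simp [num, List.countP_eq_zero]
theorem num_le_length (Q : P.DS → Prop) (p : List P.DS) : num Q p ≤ p.length :=
  List.countP_le_length

/-- least number of `Q`-steps of a path from `ω` that represents `g` -/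
noncomputable def cnt (Q : P.DS → Prop) (ω : List P.L) (g : P.U) : ℕ :=
  sInf {n | ∃ p ω', IsPath ω p ω' ∧ ev p = g ∧ num Q p = n}

theorem IsPath.cnt_le (Q : P.DS → Prop) {ω ω' : List P.L} {p : List P.DS} (h : IsPath ω p ω') :
    cnt Q ω (ev p) ≤ num Q p := by
  exact Nat.sInf_le ⟨p, ω', h, rfl, rfl⟩

theorem geo_cnt (Q : P.DS → Prop) {ω ω' : List P.L} {g : P.U} (h : Conn ω g ω') :
    ∃ p, IsPath ω p ω' ∧ ev p = g ∧ num Q p = cnt Q ω g := by
  have hne : {n | ∃ p ω', IsPath ω p ω' ∧ ev p = g ∧ num Q p = n}.Nonempty := by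
    obtain ⟨p, hp, he⟩ := h
    exact ⟨_, p, ω', hp, he, rfl⟩
  obtain ⟨p, u, hp, rfl, hl⟩ := Nat.sInf_mem hne
  obtain rfl := hp.conn.unique h
  exact ⟨p, hp, rfl, hl⟩

theorem geo_num_cons (Q : P.DS → Prop) (t : P.DS) (p : List P.DS) :
    num Q (t :: p) = num Q [t] + num Q p := num_append Q [t] p

theorem geo_num_one {Q : P.DS → Prop} {s t : P.DS} (h : Q s ↔ Q t) : num Q [s] = num Q [t] := by
  by_cases hs : Q s
  · rw [num_cons_pos hs, num_cons_pos (h.1 hs)]
  · rw [num_cons_neg hs, num_cons_neg fun ht => hs (h.2 ht)]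

theorem geo_num_par {Q : P.DS → Prop} (hQ : WallInv Q) {s t t' s' : P.DS} (h : Par s t t' s') :
    num Q [t'] = num Q [t] :=
  geo_num_one ⟨hQ.2 _ _ _ _ h.inv_left, hQ.2 _ _ _ _ h⟩

theorem geo_num_pinv {Q : P.DS → Prop} (hQ : WallInv Q) (p : List P.DS) :
    num Q (pinv p) = num Q p := by
  induction p with
  | nil => rfl
  | cons t p ih =>
    rw [pinv_cons, num_append, ih, geo_num_cons Q t p, add_comm,
      geo_num_one (s := t.inv) (t := t) ⟨fun h => by simpa using hQ.1 _ h, hQ.1 t⟩]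

theorem geo_num_split {Q Q' : P.DS → Prop} (hle : ∀ t, Q' t → Q t) (p : List P.DS) :
    num Q p = num Q' p + num (fun t => Q t ∧ ¬ Q' t) p := by
  induction p with
  | nil => rfl
  | cons t p ih =>
    by_cases h' : Q' t
    · rw [num_cons_pos (hle t h'), num_cons_pos h', num_cons_neg (fun h => h.2 h'), ih]
      omega
    · by_cases h : Q t
      · rw [num_cons_pos h, num_cons_neg h', num_cons_pos (Q := fun t => Q t ∧ ¬ Q' t) ⟨h, h'⟩, ih]
        omega
      · rw [num_cons_neg h, num_cons_neg h', num_cons_neg (fun h2 => h h2.1), ih]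

theorem Geo.cnt_eq {Q : P.DS → Prop} (hQ : WallInv Q) {ω ω' : List P.L} {p : List P.DS}
    (h : Geo ω p ω') : cnt Q ω (ev p) = num Q p := by
  refine le_antisymm (h.1.cnt_le Q) ?_
  obtain ⟨q, hq, he, hn⟩ := geo_cnt Q h.1.conn
  rw [← hn]
  refine IsPath.reduce (R := fun p q => num Q q ≤ num Q p) (fun _ => le_rfl)
    (fun _ _ _ h h' => h'.trans h) ?_ ?_ ?_ hq h he
  · intro t p q h
    rw [geo_num_cons Q t p, geo_num_cons Q t q]
    omega
  · intro s t t' s' r h
    rw [geo_num_cons Q t, geo_num_cons Q s', geo_num_cons Q s (t' :: r), geo_num_cons Q t' r,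
      geo_num_par hQ h, geo_num_par hQ h.symm]
    omega
  · intro t r
    rw [geo_num_cons Q t, geo_num_cons Q t.inv]
    omega

@[simp] theorem cnt_one (Q : P.DS → Prop) (ω : List P.L) : cnt Q ω (1 : P.U) = 0 := by
  exact Nat.le_zero.1 (IsPath.cnt_le Q (p := []) (ω := ω) rfl)

theorem Conn.cnt_inv {Q : P.DS → Prop} (hQ : WallInv Q) {ω ω' : List P.L} {g : P.U}
    (h : Conn ω g ω') : cnt Q ω' g⁻¹ = cnt Q ω g := by
  have key : ∀ {ω ω' : List P.L} {g : P.U}, Conn ω g ω' → cnt Q ω' g⁻¹ ≤ cnt Q ω g := by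
    intro ω ω' g h
    obtain ⟨p, hp, rfl, hn⟩ := geo_cnt Q h
    have := hp.pinv.cnt_le Q
    rwa [ev_pinv, geo_num_pinv hQ, hn] at this
  exact le_antisymm (key h) (by simpa using key h.symm)

theorem Conn.cnt_mul_le (Q : P.DS → Prop) {ω u ω' : List P.L} {g g' : P.U} (h : Conn ω g u)
    (h' : Conn u g' ω') : cnt Q ω (g * g') ≤ cnt Q ω g + cnt Q u g' := by
  obtain ⟨p, hp, rfl, hn⟩ := geo_cnt Q h
  obtain ⟨q, hq, rfl, hn'⟩ := geo_cnt Q h'
  have := (hp.append hq).cnt_le Q
  rwa [ev_append, num_append, hn, hn'] at this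

theorem Conn.cnt_le_len (Q : P.DS → Prop) {ω ω' : List P.L} {g : P.U} (h : Conn ω g ω') :
    cnt Q ω g ≤ len ω g := by
  obtain ⟨p, hp, rfl⟩ := h.exists_geo
  exact (hp.1.cnt_le Q).trans ((num_le_length Q p).trans_eq hp.2)

/-- a path on which the number of `Q`-steps is least also has the least number of `Q'`-steps for
`Q' ⊆ Q` -/
theorem IsPath.cnt_eq_of_le {Q Q' : P.DS → Prop} (hQ : WallInv Q) (hQ' : WallInv Q')
    (hle : ∀ t, Q' t → Q t) {ω ω' : List P.L} {p : List P.DS} (h : IsPath ω p ω')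
    (he : cnt Q ω (ev p) = num Q p) : cnt Q' ω (ev p) = num Q' p := by
  obtain ⟨q, hq, heq⟩ := h.conn.exists_geo
  have h1 := hq.cnt_eq hQ
  have h2 := hq.cnt_eq hQ'
  have h3 := hq.cnt_eq (hQ.and hQ'.not)
  have h4 := h.cnt_le Q'
  have h5 := h.cnt_le fun t => Q t ∧ ¬ Q' t
  have h6 := geo_num_split hle p
  have h7 := geo_num_split hle q
  rw [heq] at h1 h2 h3
  omega

/-- crossing a front step lowers the count -/
theorem Front.cnt_pos {Q : P.DS → Prop} (hQ : WallInv Q) {ω ω' : List P.L} {g : P.U}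
    (h : Conn ω g ω') {t : P.DS} (ht : Front ω g t) (hQt : Q t) :
    cnt Q t.tgt (t.ev⁻¹ * g) + 1 = cnt Q ω g := by
  obtain ⟨r, hr, rfl⟩ := Front.exists_geo h ht
  rw [hr.cnt_eq hQ, num_cons_pos hQt, ev_cons, inv_mul_cancel_left, (geo_tail hr).cnt_eq hQ]

/-- crossing a step that is not a front step raises the count -/
theorem cnt_not_front {Q : P.DS → Prop} (hQ : WallInv Q) {ω ω' : List P.L} {g : P.U}
    (h : Conn ω g ω') {t : P.DS} (hs : t.src = ω) (ht : ¬ Front ω g t) (hQt : Q t) :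
    cnt Q t.tgt (t.ev⁻¹ * g) = cnt Q ω g + 1 := by
  have := Front.cnt_pos hQ (geo_conn h hs) (geo_front_inv h hs ht) (hQ.1 t hQt)
  rw [← this, DS.tgt_inv, hs, DS.ev_inv, inv_inv, mul_inv_cancel_left]

/-- a morphism with count zero has a path without `Q`-steps -/
theorem Conn.exists_path_of_cnt {Q : P.DS → Prop} {ω ω' : List P.L} {g : P.U}
    (h : Conn ω g ω') (h0 : cnt Q ω g = 0) :
    ∃ p, IsPath ω p ω' ∧ ev p = g ∧ ∀ t ∈ p, ¬ Q t := by
  obtain ⟨p, hp, he, hn⟩ := geo_cnt Q h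
  exact ⟨p, hp, he, num_eq_zero.1 (hn.trans h0)⟩

theorem geo_front_pre {ω u ω' : List P.L} {p q : List P.DS} (h : Geo ω (p ++ q) ω')
    (hp : IsPath ω p u) {t : P.DS} (ht : Front ω (ev p) t) : Front ω (ev (p ++ q)) t := by
  refine ⟨ht.1, (len_step h.1.conn ht.1).resolve_right fun h1 => ?_⟩
  have h2 := (geo_conn hp.conn ht.1).len_mul_le (h.right hp).1.conn
  have h3 := ht.2
  have h4 := (h.left hp).2
  have h5 := (h.right hp).2
  rw [← h.2, ev_append, ← mul_assoc, List.length_append] at h1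
  omega

theorem geo_front_append {ω u ω' : List P.L} {p q : List P.DS} (h : Geo ω (p ++ q) ω')
    (hp : IsPath ω p u) {t : P.DS} (ht : Front ω (ev (p ++ q)) t) :
    Front ω (ev p) t ∨ ∃ (a' b' : List P.L) (pL pR : List P.DS), IsPath t.a pL a' ∧
      IsPath t.b pR b' ∧ pL.length + pR.length = p.length ∧ u = a' ++ P.side t.c t.e ++ b' ∧
      ev p = wh [] (P.side t.c t.e ++ t.b) (ev pL) * wh (a' ++ P.side t.c t.e) [] (ev pR) ∧
      (∀ Z : P.C → Prop, (∀ s ∈ p, Z s.c) → (∀ s ∈ pL, Z s.c) ∧ ∀ s ∈ pR, Z s.c) ∧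
      Front u (ev q) ⟨a', t.c, t.e, b'⟩ := by
  induction p generalizing ω t with
  | nil =>
    obtain rfl := isPath_nil.1 hp
    exact Or.inr ⟨t.a, t.b, [], [], rfl, rfl, rfl, ht.1.symm, by simp, by simp, ht⟩
  | cons s p ih =>
    have h' : Geo ω (s :: (p ++ q)) ω' := h
    rcases Front.eq_or_par h.1.conn h'.front ht with rfl | ⟨t', s', hpar⟩
    · exact Or.inl (h.left hp).front
    · have h2 := (Front.par h.1.conn hp.1 hpar).1 ht
      rw [List.cons_append, ev_cons, inv_mul_cancel_left] at h2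
      rcases ih (geo_tail h') hp.2 h2 with h3 | ⟨a', b', pL, pR, hL, hR, hl, hu, he, hZ, h3⟩
      · refine Or.inl ((Front.par hp.conn hp.1 hpar).2 ?_)
        rwa [ev_cons, inv_mul_cancel_left]
      · right
        cases hpar with
        | left a c e m c' e' b =>
          refine ⟨a', b', ⟨a, c, e, m⟩ :: pL, pR, ⟨rfl, hL⟩, hR, by simp [← hl]; omega, hu, ?_,
            fun Z hz => ?_, h3⟩
          · rw [ev_cons, ev_cons, map_mul, he, ← DS.ev_wh, mul_assoc]
            simp [DS.wh]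
          · rw [List.forall_mem_cons] at hz ⊢
            exact ⟨⟨hz.1, (hZ Z hz.2).1⟩, (hZ Z hz.2).2⟩
        | right a c e m c' e' b =>
          refine ⟨a', b', pL, ⟨m, c', e', b⟩ :: pR, hL, ⟨rfl, hR⟩, by simp [← hl]; omega, hu, ?_,
            fun Z hz => ?_, h3⟩
          · have i1 := interchange hL.conn ((Conn.step (P := P) ⟨m, c', e', b⟩).wl (P.side c e))
            have e1 : wh (a ++ P.side c e) [] (DS.ev ⟨m, c', e', b⟩) =
                DS.ev (P := P) ⟨a ++ P.side c e ++ m, c', e', b⟩ := by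
              rw [← DS.ev_wh]; simp [DS.wh]
            simp only [wh_wh, List.append_nil, DS.src, DS.tgt] at i1
            rw [ev_cons, ev_cons, map_mul, he, ← mul_assoc, ← mul_assoc, i1, e1]
          · rw [List.forall_mem_cons] at hz
            rw [List.forall_mem_cons]
            exact ⟨(hZ Z hz.2).1, hz.1, (hZ Z hz.2).2⟩

/-- concatenation of geodesics -/
theorem Geo.append_or {ω u ω' : List P.L} {p q : List P.DS} (hp : Geo ω p u) (hq : Geo u q ω') :
    Geo ω (p ++ q) ω' ∨ ∃ t, Front u (ev q) t ∧ Front u (ev p)⁻¹ t := by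
  induction p generalizing ω with
  | nil => exact Or.inl (isPath_nil.1 hp.1 ▸ hq)
  | cons t p ih =>
    rcases ih (geo_tail hp) with h | ⟨x, h1, h2⟩
    · by_cases ht : Front ω (ev (t :: (p ++ q))) t
      · exact Or.inl (geo_cons h ht)
      · right
        have h0 : IsPath ω (t :: (p ++ q)) ω' := ⟨hp.1.1, h.1⟩
        have h1 := geo_front_inv h0.conn hp.1.1 ht
        rw [ev_cons, inv_mul_cancel_left] at h1
        rcases geo_front_append h hp.1.2 h1 with h2 | ⟨a', b', pL, pR, hL, hR, hl, hu, he, -, h2⟩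
        · have h3 := h2.2
          have h4 := hp.2
          rw [DS.tgt_inv, hp.1.1, DS.ev_inv, inv_inv, ← ev_cons, ← (geo_tail hp).2] at h3
          rw [List.length_cons] at h4
          omega
        · refine ⟨_, h2, ?_⟩
          simp only [DS.inv_a, DS.inv_b, DS.inv_c, DS.inv_e] at hL hR hu he ⊢
          have hσ : Conn (P.side t.c t.e) (DS.ev ⟨[], t.c, t.e, []⟩) (P.side t.c (!t.e)) := by
            simpa [DS.src, DS.tgt] using Conn.step (P := P) ⟨[], t.c, t.e, []⟩
          have i1 := interchange' hL.conn hσ [] t.b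
          have i2 := interchange' hσ hR.conn a' []
          have e1 : wh t.a t.b (DS.ev ⟨[], t.c, t.e, []⟩) = t.ev := by
            rw [← DS.ev_wh, ← DS.eq_wh]
          have e2 : DS.ev (P := P) ⟨a', t.c, !t.e, b'⟩ = (wh a' b' (DS.ev ⟨[], t.c, t.e, []⟩))⁻¹ := by
            rw [← DS.ev_wh, ← DS.ev_inv]
            simp [DS.wh, DS.inv]
          simp only [List.nil_append, List.append_nil] at i1 i2
          have hpath : IsPath ω (pL.map (DS.wh [] (P.side t.c t.e ++ t.b)) ++
              pR.map (DS.wh (a' ++ P.side t.c t.e) [])) (a' ++ P.side t.c t.e ++ b') := by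
            refine IsPath.append (u := a' ++ P.side t.c t.e ++ t.b) ?_ ?_
            · rw [← hp.1.1]
              simpa [DS.src] using hL.wh [] (P.side t.c t.e ++ t.b)
            · simpa using hR.wh (a' ++ P.side t.c t.e) []
          have h5 := hpath.pinv.len_le
          have e3 : (DS.ev (P := P) ⟨a', t.c, !t.e, b'⟩)⁻¹ * (ev (t :: p))⁻¹ =
              (wh [] (P.side t.c t.e ++ t.b) (ev pL) * wh (a' ++ P.side t.c t.e) [] (ev pR))⁻¹ := by
            rw [e2, ev_cons, he, ← e1, ← mul_assoc, ← i1, mul_assoc, i2]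
            group
          rw [ev_pinv, ev_append, ev_map_wh, ev_map_wh, ← e3, length_pinv, List.length_append,
            List.length_map, List.length_map, hl] at h5
          have hs : DS.src (P := P) ⟨a', t.c, !t.e, b'⟩ = u := hu.symm
          refine ⟨hs, (len_step hp.1.conn.symm hs).resolve_right fun h6 => ?_⟩
          have e4 : DS.tgt (P := P) ⟨a', t.c, !t.e, b'⟩ = a' ++ P.side t.c t.e ++ b' := by
            simp [DS.tgt]
          rw [e4, hp.1.conn.len_inv, ← hp.2, List.length_cons] at h6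
          omega
    · refine Or.inr ⟨x, h1, ?_⟩
      have h3 := hp.pinv
      rw [pinv_cons] at h3
      rw [← ev_pinv] at h2
      rw [← ev_pinv, pinv_cons]
      exact geo_front_pre h3 hp.1.2.pinv h2

/-- a front step of `p ++ q` is a front step of `p`, or it passes through `p` -/
theorem Geo.front_append {ω u ω' : List P.L} {p q : List P.DS} (h : Geo ω (p ++ q) ω')
    (hp : IsPath ω p u) {t : P.DS} (ht : Front ω (ev (p ++ q)) t) :
    Front ω (ev p) t ∨ ∃ (a' b' : List P.L) (pL pR : List P.DS), IsPath t.a pL a' ∧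
      IsPath t.b pR b' ∧ pL.length + pR.length = p.length ∧ u = a' ++ P.side t.c t.e ++ b' ∧
      ev p = wh [] (P.side t.c t.e ++ t.b) (ev pL) * wh (a' ++ P.side t.c t.e) [] (ev pR) ∧
      (∀ Z : P.C → Prop, (∀ s ∈ p, Z s.c) → (∀ s ∈ pL, Z s.c) ∧ ∀ s ∈ pR, Z s.c) ∧
      Front u (ev q) ⟨a', t.c, t.e, b'⟩ := by
  exact geo_front_append h hp ht

end Pres

end Pool.Agent.MP_1e5511_al
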