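import Pool.Agent.MP_1e5511_al.Geo

set_option autoImplicit false

namespace Pool.Agent.MP_1e5511_al

namespace Pres

variable {P : Pres}

/-- finitely many loops only use finitely many steps -/
theorem closure_steps {ω : List P.L} {B : Set P.U} (hB : B.Finite) (h : ∀ b ∈ B, Conn ω b ω) :
    ∃ F : Set P.DS, F.Finite ∧ (∀ t ∈ F, Sim ω t.src) ∧ ∀ g ∈ Subgroup.closure B,
      ∃ p, IsPath ω p ω ∧ ev p = g ∧ ∀ t ∈ p, t ∈ F := by
  choose! p hp hpe using h
  refine ⟨⋃ b ∈ B, ({t | t ∈ p b} ∪ {t | t ∈ pinv (p b)}), ?_, ?_, ?_⟩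
  · exact hB.biUnion fun b _ => (List.finite_toSet _).union (List.finite_toSet _)
  · intro t ht
    simp only [Set.mem_iUnion, Set.mem_union, Set.mem_ofPred_eq] at ht
    obtain ⟨b, hb, ht | ht⟩ := ht
    · exact (hp b hb).sim_of_mem ht
    · exact (hp b hb).pinv.sim_of_mem ht
  · intro g hg
    induction hg using Subgroup.closure_induction with
    | mem b hb =>
      exact ⟨p b, hp b hb, hpe b hb, fun t ht => Set.mem_biUnion hb (Or.inl ht)⟩
    | one => exact ⟨[], rfl, rfl, by simp⟩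
    | mul x y _ _ ihx ihy =>
      obtain ⟨q, hq, rfl, hqF⟩ := ihx
      obtain ⟨r, hr, rfl, hrF⟩ := ihy
      exact ⟨q ++ r, hq.append hr, ev_append q r, fun t ht =>
        (List.mem_append.1 ht).elim (hqF t) (hrF t)⟩
    | inv x _ ih =>
      obtain ⟨q, hq, rfl, hqF⟩ := ih
      refine ⟨pinv q, hq.pinv, ev_pinv q, fun t ht => ?_⟩
      have h1 := hqF _ (mem_pinv.1 ht)
      simp only [Set.mem_iUnion, Set.mem_union, Set.mem_ofPred_eq] at h1 ⊢
      obtain ⟨b, hb, h1 | h1⟩ := h1
      · exact ⟨b, hb, Or.inr (mem_pinv.2 h1)⟩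
      · exact ⟨b, hb, Or.inl (by simpa using mem_pinv.1 h1)⟩

theorem fg_steps {ω : List P.L} (h : Group.IsFinitelyPresented (D ω)) :
    ∃ F : Set P.DS, F.Finite ∧ (∀ t ∈ F, Sim ω t.src) ∧ ∀ g, Conn ω g ω →
      ∃ p, IsPath ω p ω ∧ ev p = g ∧ ∀ t ∈ p, t ∈ F := by
  obtain ⟨n, φ, hφ, -⟩ := h.out
  obtain ⟨F, h1, h2, h3⟩ := closure_steps (ω := ω)
    (B := Set.range fun i : Fin n => (φ (FreeGroup.of i) : P.U)) (Set.finite_range _)
    (by rintro _ ⟨i, rfl⟩; exact (φ (FreeGroup.of i)).2)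
  refine ⟨F, h1, h2, fun g hg => h3 g ?_⟩
  obtain ⟨x, hx⟩ := hφ ⟨g, hg⟩
  have key : ∀ x : FreeGroup (Fin n), (φ x : P.U) ∈
      Subgroup.closure (Set.range fun i : Fin n => (φ (FreeGroup.of i) : P.U)) := by
    intro x
    induction x using FreeGroup.induction_on with
    | C1 => rw [map_one]; exact Subgroup.one_mem _
    | of i => exact Subgroup.subset_closure ⟨i, rfl⟩
    | inv_of i ih => rw [map_inv]; exact Subgroup.inv_mem _ ih
    | mul x y ihx ihy => rw [map_mul]; exact Subgroup.mul_mem _ ihx ihy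
  have := key x
  rwa [hx] at this

/-- a finite component has a finitely generated group -/
theorem fg_of_finite {ω : List P.L} (h : {t : P.DS | Sim ω t.src}.Finite) :
    ∃ B : Set P.U, B.Finite ∧ (∀ b ∈ B, Conn ω b ω) ∧
      ∀ g, Conn ω g ω → g ∈ Subgroup.closure B := by
  have hG : ∀ u, ∃ g : P.U, Sim ω u → Conn ω g u := by
    intro u
    by_cases hu : Sim ω u
    · obtain ⟨g, hg⟩ := hu
      exact ⟨g, fun _ => hg⟩
    · exact ⟨1, fun h' => absurd h' hu⟩
  choose G hG using hG
  refine ⟨insert (G ω) ((fun t : P.DS => G t.src * t.ev * (G t.tgt)⁻¹) '' {t | Sim ω t.src}),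
    (h.image _).insert _, ?_, ?_⟩
  · rintro _ (rfl | ⟨t, ht, rfl⟩)
    · exact hG ω (Sim.refl ω)
    · exact ((hG _ ht).trans (Conn.step t)).trans (hG _ (Sim.trans ht (Sim.step t))).symm
  · have key : ∀ (p : List P.DS) u u', IsPath u p u' → Sim ω u →
        G u * ev p * (G u')⁻¹ ∈ Subgroup.closure (insert (G ω)
          ((fun t : P.DS => G t.src * t.ev * (G t.tgt)⁻¹) '' {t | Sim ω t.src})) := by
      intro p
      induction p with
      | nil =>
        intro u u' hp _
        obtain rfl := isPath_nil.1 hp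
        simp
      | cons t p ih =>
        intro u u' hp hu
        obtain ⟨rfl, hp⟩ := hp
        have h1 : G t.src * ev (t :: p) * (G u')⁻¹ =
            (G t.src * t.ev * (G t.tgt)⁻¹) * (G t.tgt * ev p * (G u')⁻¹) := by
          rw [ev_cons]; group
        rw [h1]
        exact Subgroup.mul_mem _ (Subgroup.subset_closure (Or.inr ⟨t, hu, rfl⟩))
          (ih _ _ hp (hu.trans (Sim.step t)))
    rintro _ ⟨p, hp, rfl⟩
    have h1 : ev p = (G ω)⁻¹ * (G ω * ev p * (G ω)⁻¹) * G ω := by group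
    rw [h1]
    exact Subgroup.mul_mem _ (Subgroup.mul_mem _
      (Subgroup.inv_mem _ (Subgroup.subset_closure (Or.inl rfl))) (key p ω ω hp (Sim.refl ω)))
      (Subgroup.subset_closure (Or.inl rfl))

/-- a homomorphism that is only prescribed on the component of `ω` -/
theorem lift_on {H : Type*} [Group H] (ω : List P.L) (f : P.DS → H)
    (hinv : ∀ t, Sim ω t.src → f t.inv = (f t)⁻¹)
    (hpar : ∀ a c e m c' e' b, Sim ω (a ++ P.side c e ++ m ++ P.side c' e' ++ b) →
      f ⟨a, c, e, m ++ P.side c' e' ++ b⟩ * f ⟨a ++ P.side c (!e) ++ m, c', e', b⟩ =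
        f ⟨a ++ P.side c e ++ m, c', e', b⟩ * f ⟨a, c, e, m ++ P.side c' (!e') ++ b⟩) :
    ∃ φ : P.U →* H, ∀ t, Sim ω t.src → φ t.ev = f t := by
  classical
  let ψ : P.DS → H := fun t => if Sim ω t.src then f t else 1
  refine ⟨lift (fun x => ψ ⟨x.1, x.2.1, false, x.2.2⟩) ?_, ?_⟩
  · intro a c m c' b
    have hp := Par.left (P := P) a c false m c' false b
    simp only [Bool.not_false] at hp
    by_cases h1 : Sim ω (DS.src ⟨a, c, false, m ++ P.side c' false ++ b⟩)
    · have h2 := h1.trans (Sim.step _)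
      rw [← hp.src_t'] at h2
      have h3 := h1
      rw [hp.src_eq] at h3
      have h4 := h3.trans (Sim.step _)
      rw [← hp.src_s'] at h4
      simp only [ψ, if_pos h1, if_pos h2, if_pos h3, if_pos h4]
      exact hpar a c false m c' false b h3
    · have h2 : ¬ Sim ω (DS.src ⟨a ++ P.side c true ++ m, c', false, b⟩) := by
        rw [hp.src_t']
        exact fun h => h1 (h.trans (Sim.step _).symm)
      have h3 := h1
      rw [hp.src_eq] at h3
      have h4 : ¬ Sim ω (DS.src ⟨a, c, false, m ++ P.side c' true ++ b⟩) := by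
        rw [hp.src_s']
        exact fun h => h3 (h.trans (Sim.step _).symm)
      simp only [ψ, if_neg h1, if_neg h2, if_neg h3, if_neg h4]
  · rintro ⟨a, c, _ | _, b⟩ ht
    · simp only [DS.ev, cond_false, lift_gen, ψ, if_pos ht]
    · have h1 : Sim ω (DS.src ⟨a, c, false, b⟩) := ht.trans (Sim.step _)
      simp only [DS.ev, cond_true, map_inv, lift_gen, ψ, if_pos h1]
      exact (hinv _ h1).symm

/-- lifting of equivalences along an injective map of letters -/
theorem sim_lift {P' : Pres} (k : P'.L → P.L) (hk : Function.Injective k) (Q : List P.L → Prop)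
    (hQ : ∀ t : P.DS, Q t.src → Q t.tgt)
    (hc : ∀ t : P.DS, Q t.src → ∃ c', ∀ b, P.side t.c b = (P'.side c' b).map k)
    {α α' : List P'.L} (h0 : Q (α.map k)) (h : Sim (α.map k) (α'.map k)) : Sim α α' := by
  have hk' := List.map_injective_iff.2 hk
  have key := h.induction (Q := fun u => Q u ∧ ∃ β : List P'.L, β.map k = u ∧ Sim α β)
    ⟨h0, α, rfl, Sim.refl α⟩ (by
      rintro t ⟨hq, β, hβ, hs⟩
      refine ⟨hQ t hq, ?_⟩
      obtain ⟨c', hc'⟩ := hc t hq
      obtain ⟨β₁, β₃, rfl, h1, h3⟩ := List.map_eq_append_iff.1 hβ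
      obtain ⟨β₁, β₂, rfl, h4, h2⟩ := List.map_eq_append_iff.1 h1
      rw [hc'] at h2
      obtain rfl := hk' h2
      refine ⟨DS.tgt ⟨β₁, c', t.e, β₃⟩, ?_, hs.trans (Sim.step ⟨β₁, c', t.e, β₃⟩)⟩
      simp only [DS.tgt, List.map_append, h4, h3, hc'])
  obtain ⟨-, β, hβ, hs⟩ := key
  exact hk' hβ ▸ hs

/-- locally injective maps of Squier complexes that preserve and reflect squares -/
structure StepMap (P' P : Pres) where
  w : List P'.L → List P.L
  d : P'.DS → P.DS
  src : ∀ t, (d t).src = w t.src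
  inv : ∀ t, d t.inv = (d t).inv
  par : ∀ s t t' s', Par s t t' s' → Par (d s) (d t) (d t') (d s')
  inj : ∀ s t, s.src = t.src → d s = d t → s = t
  refl : ∀ s t x y, s.src = t.src → Par (d s) (d t) x y → ∃ t' s', Par s t t' s'

namespace StepMap

variable {P' : Pres} (F : StepMap P' P)

theorem tgt (t : P'.DS) : (F.d t).tgt = F.w t.tgt := by
  simpa [F.inv] using F.src t.inv

def hom : P'.U →* P.U :=
  lift (fun x => (F.d ⟨x.1, x.2.1, false, x.2.2⟩).ev)
    fun a c m c' b => (F.par _ _ _ _ (Par.left a c false m c' false b)).ev_eq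

@[simp] theorem hom_ev₁ (t : P'.DS) : F.hom t.ev = (F.d t).ev := by
  rcases t with ⟨a, c, _ | _, b⟩
  · simp [hom, DS.ev]
  · have := F.inv ⟨a, c, false, b⟩
    simp only [DS.inv, Bool.not_false] at this
    rw [this]
    change _ = (F.d ⟨a, c, false, b⟩).inv.ev
    rw [DS.ev_inv]
    simp [hom, DS.ev]

theorem hom_ev (p : List P'.DS) : F.hom (ev p) = ev (p.map F.d) := by
  induction p with
  | nil => simp
  | cons t p ih => simp [ih]

theorem isPath {ω ω' : List P'.L} {p : List P'.DS} (h : IsPath ω p ω') :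
    IsPath (F.w ω) (p.map F.d) (F.w ω') := by
  induction p generalizing ω with
  | nil => simp [isPath_nil.1 h]
  | cons t p ih => exact ⟨by rw [F.src, h.1], by rw [F.tgt]; exact ih h.2⟩

theorem conn {ω ω' : List P'.L} {g : P'.U} (h : Conn ω g ω') :
    Conn (F.w ω) (F.hom g) (F.w ω') := by
  obtain ⟨p, hp, rfl⟩ := h
  exact ⟨_, F.isPath hp, (F.hom_ev p).symm⟩

theorem sim {ω ω' : List P'.L} (h : Sim ω ω') : Sim (F.w ω) (F.w ω') :=
  (F.conn h.choose_spec).sim

theorem maps_front {ω ω' : List P'.L} {q : List P'.DS} (h : Geo ω q ω')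
    (h' : Geo (F.w ω) (q.map F.d) (F.w ω')) (y : P'.DS) (hy : y.src = ω)
    (hf : Front (F.w ω) (ev (q.map F.d)) (F.d y)) : Front ω (ev q) y := by
  induction q generalizing ω y with
  | nil =>
    have := hf.2
    simp at this
  | cons s q ih =>
    obtain rfl : s.src = ω := h.1.1
    rcases Front.eq_or_par h'.1.conn (Geo.front h') hf with he | ⟨x, z, hp⟩
    · obtain rfl := F.inj s y hy.symm he
      exact h.front
    · obtain ⟨y', s', hp'⟩ := F.refl s y x z hy.symm hp
      have h1 : Geo s.tgt q ω' := Geo.right (p := [s]) h (by simp)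
      have h2 : Geo (F.w s.tgt) (q.map F.d) (F.w ω') :=
        Geo.right (p := [F.d s]) h' (by simp [F.src, F.tgt])
      have h3 := (Front.par h'.1.conn (F.src s) (F.par _ _ _ _ hp')).1 hf
      rw [F.tgt, List.map_cons, ev_cons, inv_mul_cancel_left] at h3
      refine (Front.par h.1.conn rfl hp').2 ?_
      rw [ev_cons, inv_mul_cancel_left]
      exact ih h1 h2 y' hp'.src_t' h3

theorem geo {ω ω' : List P'.L} {p : List P'.DS} (h : Geo ω p ω') :
    Geo (F.w ω) (p.map F.d) (F.w ω') := by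
  induction p generalizing ω with
  | nil => exact ⟨F.isPath h.1, by simp⟩
  | cons t p ih =>
    obtain rfl : t.src = ω := h.1.1
    have h1 : Geo t.tgt p ω' := Geo.right (p := [t]) h (by simp)
    have h2 := ih h1
    refine ⟨F.isPath h.1, ?_⟩
    have h3 : (F.d t.inv).src = F.w t.tgt := F.src _
    rcases len_step h2.1.conn h3 with h4 | h4
    · have h5 := (F.maps_front h1 h2 t.inv rfl ⟨h3, h4⟩).2
      have h6 := h.2
      have h7 := h1.2
      simp only [DS.tgt_inv, DS.ev_inv, inv_inv, List.length_cons, ev_cons] at h5 h6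
      omega
    · have h7 := h2.2
      rw [F.inv, DS.tgt_inv, DS.ev_inv, inv_inv, F.src] at h4
      simp only [List.map_cons, List.length_cons, ev_cons]
      omega

theorem len_hom {ω ω' : List P'.L} {g : P'.U} (h : Conn ω g ω') :
    len (F.w ω) (F.hom g) = len ω g := by
  obtain ⟨p, hp, rfl⟩ := h.exists_geo
  rw [F.hom_ev, ← (F.geo hp).2, ← hp.2, List.length_map]

theorem hom_inj {ω ω' : List P'.L} {g g' : P'.U} (h : Conn ω g ω') (h' : Conn ω g' ω')
    (he : F.hom g = F.hom g') : g = g' := by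
  have h1 := h.symm.trans h'
  have h2 := F.len_hom h1
  rw [map_mul, map_inv, he, inv_mul_cancel, len_one] at h2
  exact inv_mul_eq_one.1 (h1.eq_of_len h2.symm).1

theorem cnt_hom {Q : P.DS → Prop} (hQ : WallInv Q) {ω ω' : List P'.L} {g : P'.U}
    (h : Conn ω g ω') : cnt Q (F.w ω) (F.hom g) = cnt (fun t => Q (F.d t)) ω g := by
  obtain ⟨p, hp, rfl⟩ := h.exists_geo
  have hQ' : WallInv fun t => Q (F.d t) :=
    ⟨fun t ht => show Q (F.d t.inv) from F.inv t ▸ hQ.1 _ ht,
      fun s t t' s' hp ht => hQ.2 _ _ _ _ (F.par _ _ _ _ hp) ht⟩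
  rw [F.hom_ev, (F.geo hp).cnt_eq hQ, hp.cnt_eq hQ']
  unfold num
  rw [List.countP_map]
  rfl

/-- lifting of morphisms when steps lift -/
theorem conn_lift (Q : List P'.L → Prop) (hQ : ∀ t : P'.DS, Q t.src → Q t.tgt)
    (hl : ∀ ω (t : P.DS), Q ω → t.src = F.w ω → ∃ t', t'.src = ω ∧ F.d t' = t)
    {ω : List P'.L} (h0 : Q ω) {g : P.U} {u : List P.L} (h : Conn (F.w ω) g u) :
    ∃ ω' g', Conn ω g' ω' ∧ F.w ω' = u ∧ F.hom g' = g := by
  obtain ⟨p, hp, rfl⟩ := h
  induction p generalizing ω with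
  | nil => exact ⟨ω, 1, Conn.refl ω, hp, by simp⟩
  | cons t p ih =>
    obtain ⟨t', rfl, rfl⟩ := hl ω t h0 hp.1
    obtain ⟨ω', g', h1, h2, h3⟩ := ih (hQ t' h0) (F.tgt t' ▸ hp.2)
    exact ⟨ω', t'.ev * g', (Conn.step t').trans h1, h2, by simp [h3]⟩

/-- a step map that is onto on loops induces an isomorphism of diagram groups -/
theorem equivD {ω : List P'.L}
    (h : ∀ g, Conn (F.w ω) g (F.w ω) → ∃ g', Conn ω g' ω ∧ F.hom g' = g) :
    Nonempty (D ω ≃* D (F.w ω)) := by
  refine ⟨MulEquiv.ofBijective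
    ((F.hom.comp (D ω).subtype).codRestrict (D (F.w ω)) fun x => F.conn x.2) ⟨?_, ?_⟩⟩
  · intro x y hxy
    exact Subtype.ext (F.hom_inj x.2 y.2 (congrArg Subtype.val hxy))
  · intro x
    obtain ⟨g', h1, h2⟩ := h x.1 x.2
    exact ⟨⟨g', h1⟩, Subtype.ext h2⟩

end StepMap

theorem maps_par_len {s t x y : P.DS} (h : Par s t x y) :
    (s.a ++ P.side s.c s.e).length ≤ t.a.length ∨ (t.a ++ P.side t.c t.e).length ≤ s.a.length := by
  cases h
  · left; simp
  · right; simp

theorem maps_par_of_len {s t : P.DS} (h : s.src = t.src)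
    (hl : (s.a ++ P.side s.c s.e).length ≤ t.a.length) : ∃ t' s', Par s t t' s' := by
  obtain ⟨a, c, e, b⟩ := s
  obtain ⟨a', c', e', b'⟩ := t
  simp only [DS.src] at h hl
  rw [List.append_assoc a'] at h
  have key : ∃ m, a' = a ++ P.side c e ++ m ∧ b = m ++ (P.side c' e' ++ b') := by
    rcases List.append_eq_append_iff.1 h with h1 | ⟨m, h1, h2⟩
    · exact h1
    · have h3 : m = [] := by
        rw [h1, List.length_append] at hl
        exact List.eq_nil_of_length_eq_zero (by omega)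
      subst h3
      exact ⟨[], by simpa using h1.symm, by simpa using h2.symm⟩
  obtain ⟨m, rfl, rfl⟩ := key
  rw [← List.append_assoc m]
  exact ⟨_, _, Par.left a c e m c' e' b'⟩

theorem maps_par_of_or {s t : P.DS} (h : s.src = t.src)
    (hl : (s.a ++ P.side s.c s.e).length ≤ t.a.length ∨
      (t.a ++ P.side t.c t.e).length ≤ s.a.length) : ∃ t' s', Par s t t' s' := by
  rcases hl with hl | hl
  · exact maps_par_of_len h hl
  · obtain ⟨x, y, hp⟩ := maps_par_of_len h.symm hl
    exact ⟨_, _, hp.symm⟩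

/-- whiskering as a step map -/
def maps_wh (α γ : List P.L) : StepMap P P where
  w u := α ++ u ++ γ
  d := DS.wh α γ
  src t := DS.src_wh α γ t
  inv _ := rfl
  par s t t' s' h := by
    cases h with
    | left a c e m c' e' b =>
      simpa [DS.wh] using Par.left (P := P) (α ++ a) c e m c' e' (b ++ γ)
    | right a c e m c' e' b =>
      simpa [DS.wh] using Par.right (P := P) (α ++ a) c e m c' e' (b ++ γ)
  inj s t _ h := by
    obtain ⟨a, c, e, b⟩ := s
    obtain ⟨a', c', e', b'⟩ := t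
    simpa [DS.wh] using h
  refl s t x y hs h := by
    refine maps_par_of_or hs ?_
    have := maps_par_len h
    simp only [DS.wh, List.length_append] at this ⊢
    omega

theorem maps_wh_hom (α γ : List P.L) : (maps_wh α γ).hom = Pres.wh α γ :=
  hom_ext fun x => by simp [StepMap.hom, maps_wh, Pres.wh, DS.ev, DS.wh]

theorem Geo.wh {ω ω' : List P.L} {p : List P.DS} (h : Geo ω p ω') (α γ : List P.L) :
    Geo (α ++ ω ++ γ) (p.map (DS.wh α γ)) (α ++ ω' ++ γ) := by
  exact (maps_wh α γ).geo h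

theorem Conn.len_wh {ω ω' : List P.L} {g : P.U} (h : Conn ω g ω') (α γ : List P.L) :
    len (α ++ ω ++ γ) (Pres.wh α γ g) = len ω g := by
  rw [← maps_wh_hom]
  exact (maps_wh α γ).len_hom h

theorem Conn.wh_inj {ω ω' : List P.L} {g g' : P.U} (h : Conn ω g ω') (h' : Conn ω g' ω')
    {α γ : List P.L} (he : Pres.wh α γ g = Pres.wh α γ g') : g = g' := by
  rw [← maps_wh_hom] at he
  exact (maps_wh α γ).hom_inj h h' he

theorem Conn.cnt_wh {Q : P.DS → Prop} (hQ : WallInv Q) {ω ω' : List P.L} {g : P.U}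
    (h : Conn ω g ω') (α γ : List P.L) :
    cnt Q (α ++ ω ++ γ) (Pres.wh α γ g) = cnt (fun t => Q (t.wh α γ)) ω g := by
  rw [← maps_wh_hom]
  exact (maps_wh α γ).cnt_hom hQ h

/-- substitutions of nonempty words for letters that are compatible with the cells -/
structure Emb (P' P : Pres) where
  j : P'.L → List P.L
  hj : ∀ l, j l ≠ []
  φ : P'.C → P.C
  side : ∀ c b, P.side (φ c) b = (P'.side c b).flatMap j
  inj : ∀ c c' b, φ c = φ c' → P'.side c b = P'.side c' b → c = c'

namespace Emb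

variable {P' : Pres} (E : Emb P' P)

theorem maps_len_le {x y x' y' : List P'.L} (h : x ++ y = x' ++ y')
    (hl : (x.flatMap E.j).length ≤ (x'.flatMap E.j).length) : x.length ≤ x'.length := by
  rcases List.append_eq_append_iff.1 h with ⟨m, rfl, -⟩ | ⟨m, rfl, -⟩
  · simp
  · rcases m with _ | ⟨l, m⟩
    · simp
    · have := List.length_pos_iff.2 (E.hj l)
      simp only [List.flatMap_append, List.flatMap_cons, List.length_append] at hl
      omega

def toMap : StepMap P' P where
  w u := u.flatMap E.j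
  d t := ⟨t.a.flatMap E.j, E.φ t.c, t.e, t.b.flatMap E.j⟩
  src t := by simp [DS.src, E.side]
  inv _ := rfl
  par s t t' s' h := by
    cases h with
    | left a c e m c' e' b =>
      simpa [E.side] using Par.left (P := P) (a.flatMap E.j) (E.φ c) e (m.flatMap E.j) (E.φ c') e'
        (b.flatMap E.j)
    | right a c e m c' e' b =>
      simpa [E.side] using Par.right (P := P) (a.flatMap E.j) (E.φ c) e (m.flatMap E.j) (E.φ c') e'
        (b.flatMap E.j)
  inj := by
    rintro ⟨a, c, e, b⟩ ⟨a', c', e', b'⟩ hs h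
    simp only [DS.mk.injEq] at h
    obtain ⟨h1, h2, rfl, h4⟩ := h
    simp only [DS.src] at hs
    have h5 : (a ++ P'.side c e).flatMap E.j = (a' ++ P'.side c' e).flatMap E.j := by
      rw [List.flatMap_append, List.flatMap_append, h1, ← E.side, ← E.side, h2]
    obtain ⟨h6, rfl⟩ := List.append_inj hs (le_antisymm (E.maps_len_le hs (by rw [h5]))
      (E.maps_len_le hs.symm (by rw [h5])))
    obtain ⟨rfl, h7⟩ := List.append_inj h6 (le_antisymm (E.maps_len_le h6 (by rw [h1]))
      (E.maps_len_le h6.symm (by rw [h1])))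
    obtain rfl := E.inj c c' e h2 h7
    rfl
  refl := by
    intro s t x y hs h
    refine maps_par_of_or hs ?_
    have h1 : s.a ++ P'.side s.c s.e ++ s.b = t.a ++ (P'.side t.c t.e ++ t.b) := by
      simpa [DS.src] using hs
    have h2 : t.a ++ P'.side t.c t.e ++ t.b = s.a ++ (P'.side s.c s.e ++ s.b) := by
      simpa [DS.src] using hs.symm
    rcases maps_par_len h with h3 | h3
    · exact Or.inl (E.maps_len_le h1 (by rw [List.flatMap_append, ← E.side]; exact h3))
    · exact Or.inr (E.maps_len_le h2 (by rw [List.flatMap_append, ← E.side]; exact h3))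

@[simp] theorem toMap_w (u : List P'.L) : E.toMap.w u = u.flatMap E.j := rfl
@[simp] theorem toMap_d (t : P'.DS) :
    E.toMap.d t = ⟨t.a.flatMap E.j, E.φ t.c, t.e, t.b.flatMap E.j⟩ := rfl

theorem hom_wh (α γ : List P'.L) (g : P'.U) :
    E.toMap.hom (wh α γ g) = wh (α.flatMap E.j) (γ.flatMap E.j) (E.toMap.hom g) := by
  have : E.toMap.hom.comp (wh α γ) = (wh (α.flatMap E.j) (γ.flatMap E.j)).comp E.toMap.hom :=
    hom_ext fun x => by simp [StepMap.hom, wh, DS.ev]
  exact DFunLike.congr_fun this g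

end Emb

end Pres

end Pool.Agent.MP_1e5511_al
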