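import Pool.Agent.MP_1e5511_al.Maps

set_option autoImplicit false

namespace Pool.Agent.MP_1e5511_al

/-- groups that contain no large power of a nontrivial group -/
def Small (G : Type) [Group G] : Prop :=
  ∃ N : ℕ, ∀ (H : Type) [Group H] (f : (Fin N → H) →* G), Function.Injective f → Subsingleton H

theorem Small.of_injective {G G' : Type} [Group G] [Group G'] (h : Small G') (f : G →* G')
    (hf : Function.Injective f) : Small G := by
  obtain ⟨N, hN⟩ := h
  exact ⟨N, fun H _ g hg => hN H (f.comp g) (hf.comp hg)⟩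

/-- the two properties of the group that are used -/
def Nice (G : Type) [Group G] : Prop := Group.IsFinitelyPresented G ∧ Small G

theorem Nice.of_equiv {G G' : Type} [Group G] [Group G'] (h : Nice G') (e : G ≃* G') : Nice G :=
  ⟨have := h.1; Group.IsFinitelyPresented.equiv e.symm, h.2.of_injective e e.injective⟩

/-- directed paths in a graph -/
def Walk {L V : Type} (src tgt : L → V) : V → List L → V → Prop
  | q, [], q' => q = q'
  | q, l :: u, q' => src l = q ∧ Walk src tgt (tgt l) u q'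

/-- letters are edges of a directed graph, and the two sides of a cell are parallel paths -/
structure Typed (P : Pres) (V : Type) where
  src : P.L → V
  tgt : P.L → V
  s : P.C → V
  e : P.C → V
  hside : ∀ c b, Walk src tgt (s c) (P.side c b) (e c)

namespace Typed

open Pres

variable {P : Pres} {V : Type} (T : Typed P V)

def Path (q : V) (u : List P.L) (q' : V) : Prop := Walk T.src T.tgt q u q'

def Reach (q q' : V) : Prop := ∃ u, T.Path q u q'

def Cyc (q : V) : Prop := ∃ u, u ≠ [] ∧ T.Path q u q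

/-- the strongly connected component of `q` -/
def Scc (q q' : V) : Prop := T.Reach q q' ∧ T.Reach q' q

def Convex (K : V → Prop) : Prop := ∀ q q' q'', K q → T.Reach q q' → T.Reach q' q'' → K q'' → K q'

/-- cells that enter `K` -/
def Zin (K : V → Prop) (c : P.C) : Prop := ¬ K (T.s c) ∧ K (T.e c)

/-- cells that leave `K` -/
def Zout (K : V → Prop) (c : P.C) : Prop := K (T.s c) ∧ ¬ K (T.e c)

variable {T}

@[simp] theorem path_nil {q q' : V} : T.Path q [] q' ↔ q = q' := Iff.rfl
@[simp] theorem path_cons {q q' : V} {l : P.L} {u : List P.L} :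
    T.Path q (l :: u) q' ↔ T.src l = q ∧ T.Path (T.tgt l) u q' := Iff.rfl

theorem path_side (c : P.C) (b : Bool) : T.Path (T.s c) (P.side c b) (T.e c) := T.hside c b

theorem path_append {q q' : V} {u v : List P.L} :
    T.Path q (u ++ v) q' ↔ ∃ m, T.Path q u m ∧ T.Path m v q' := by
  induction u generalizing q with
  | nil => simp
  | cons l u ih => simp only [List.cons_append, path_cons, ih]; tauto

theorem Path.append {q m q' : V} {u v : List P.L} (h : T.Path q u m) (h' : T.Path m v q') :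
    T.Path q (u ++ v) q' := path_append.2 ⟨m, h, h'⟩

theorem Path.end_eq {q m m' : V} {u : List P.L} (h : T.Path q u m) (h' : T.Path q u m') :
    m = m' := by
  induction u generalizing q with
  | nil => exact h.symm.trans h'
  | cons l u ih => exact ih h.2 h'.2

theorem Path.start_eq {q m m' : V} {u : List P.L} (h : T.Path m u q) (h' : T.Path m' u q) :
    m = m' := by
  cases u with
  | nil => exact h.trans h'.symm
  | cons l u => exact h.1.symm.trans h'.1

theorem Path.ends_eq {q q' m m' : V} {u : List P.L} (hu : u ≠ []) (h : T.Path q u m)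
    (h' : T.Path q' u m') : q = q' ∧ m = m' := by
  cases u with
  | nil => exact absurd rfl hu
  | cons l u => exact ⟨h.1.symm.trans h'.1, Path.end_eq h.2 h'.2⟩

theorem Path.left {q m q' : V} {u v : List P.L} (h : T.Path q (u ++ v) q') (h' : T.Path m v q') :
    T.Path q u m := by
  obtain ⟨x, h1, h2⟩ := path_append.1 h
  exact h2.start_eq h' ▸ h1

theorem Path.right {q m q' : V} {u v : List P.L} (h : T.Path q (u ++ v) q') (h' : T.Path q u m) :
    T.Path m v q' := by
  obtain ⟨x, h1, h2⟩ := path_append.1 h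
  exact h1.end_eq h' ▸ h2

theorem path_mid {q q' : V} {a b : List P.L} {c : P.C} {e : Bool} :
    T.Path q (a ++ P.side c e ++ b) q' ↔ T.Path q a (T.s c) ∧ T.Path (T.e c) b q' := by
  constructor
  · intro h
    obtain ⟨m, h1, h2⟩ := path_append.1 h
    obtain ⟨m', h3, h4⟩ := path_append.1 h1
    obtain ⟨rfl, rfl⟩ := h4.ends_eq (P.ne c e) (path_side c e)
    exact ⟨h3, h2⟩
  · rintro ⟨h1, h2⟩
    exact (h1.append (path_side c e)).append h2

theorem path_src {q q' : V} {t : P.DS} :
    T.Path q t.src q' ↔ T.Path q t.a (T.s t.c) ∧ T.Path (T.e t.c) t.b q' := path_mid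

theorem path_tgt {q q' : V} {t : P.DS} :
    T.Path q t.tgt q' ↔ T.Path q t.a (T.s t.c) ∧ T.Path (T.e t.c) t.b q' := path_mid

theorem Path.sim {q q' : V} {u v : List P.L} (h : T.Path q u q') (h' : Sim u v) :
    T.Path q v q' :=
  h'.induction (Q := fun x => T.Path q x q') h fun _ ht => path_tgt.2 (path_src.1 ht)

theorem path_letter {q q' : V} {a b : List P.L} {l : P.L} :
    T.Path q (a ++ l :: b) q' ↔ T.Path q a (T.src l) ∧ T.Path (T.tgt l) b q' := by
  rw [path_append]
  constructor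
  · rintro ⟨m, h1, rfl, h2⟩; exact ⟨h1, h2⟩
  · rintro ⟨h1, h2⟩; exact ⟨_, h1, rfl, h2⟩

theorem Path.reach {q q' : V} {u : List P.L} (h : T.Path q u q') : T.Reach q q' := ⟨u, h⟩
theorem Reach.refl (q : V) : T.Reach q q := ⟨[], rfl⟩
theorem Reach.trans {q m q' : V} (h : T.Reach q m) (h' : T.Reach m q') : T.Reach q q' :=
  ⟨_, h.choose_spec.append h'.choose_spec⟩
theorem reach_letter (l : P.L) : T.Reach (T.src l) (T.tgt l) := ⟨[l], rfl, rfl⟩
theorem reach_cell (c : P.C) : T.Reach (T.s c) (T.e c) := ⟨_, path_side c false⟩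

theorem Path.reach_mem {q q' : V} {u : List P.L} (h : T.Path q u q') {l : P.L} (hl : l ∈ u) :
    T.Reach q (T.src l) ∧ T.Reach (T.tgt l) q' := by
  obtain ⟨a, b, rfl⟩ := List.append_of_mem hl
  exact ⟨(path_letter.1 h).1.reach, (path_letter.1 h).2.reach⟩

theorem convex_scc (q : V) : T.Convex (T.Scc q) :=
  fun _ _ _ h h1 h2 h3 => ⟨h.1.trans h1, h2.trans h3.2⟩

theorem Cyc.scc {q q' : V} (h : T.Cyc q) (h' : T.Scc q q') : T.Cyc q' := by
  obtain ⟨u, hu, h⟩ := h
  obtain ⟨⟨a, ha⟩, b, hb⟩ := h'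
  exact ⟨b ++ u ++ a, by simp [hu], (hb.append h).append ha⟩

theorem Cyc.exists_src {q : V} (h : T.Cyc q) : ∃ l, T.src l = q := by
  obtain ⟨_ | ⟨l, u⟩, hu, h⟩ := h
  · exact absurd rfl hu
  · exact ⟨l, h.1⟩

theorem Path.exists_tgt {q q' : V} {u : List P.L} (h : T.Path q u q') (hu : u ≠ []) :
    ∃ l ∈ u, T.tgt l = q' := by
  obtain ⟨a, l, rfl⟩ := List.eq_nil_or_concat u |>.resolve_left hu
  rw [List.concat_eq_append] at h ⊢
  exact ⟨l, by simp, (path_letter.1 h).2⟩

theorem finite_cyc [Finite P.L] : {q | T.Cyc q}.Finite :=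
  (Set.finite_range T.src).subset fun _ h => h.exists_src

/-- a path that leaves `K` has a letter that leaves `K` -/
theorem Path.exists_out {K : V → Prop} {q q' : V} {u : List P.L} (h : T.Path q u q') (hq : K q)
    (hq' : ¬ K q') : ∃ a l b, u = a ++ l :: b ∧ K (T.src l) ∧ ¬ K (T.tgt l) := by
  induction u generalizing q with
  | nil => exact absurd (path_nil.1 h ▸ hq) hq'
  | cons l u ih =>
    by_cases hl : K (T.tgt l)
    · obtain ⟨a, l', b, rfl, h1⟩ := ih h.2 hl
      exact ⟨l :: a, l', b, rfl, h1⟩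
    · exact ⟨[], l, u, rfl, h.1 ▸ hq, hl⟩

/-- without cycles, there are finitely many paths -/
theorem finite_paths [Finite P.L] {q : V} (h : ∀ q', T.Reach q q' → ¬ T.Cyc q') :
    {u | ∃ q', T.Path q u q'}.Finite := by
  refine (List.finite_length_le P.L (Nat.card P.L)).subset ?_
  rintro u ⟨q', hu⟩
  have hn : u.Nodup := by
    by_contra hd
    obtain ⟨l, hl⟩ := List.exists_duplicate_iff_not_nodup.2 hd
    obtain ⟨a, m, b, rfl⟩ : ∃ a m b, u = a ++ l :: (m ++ l :: b) := by
      have := List.duplicate_iff_sublist.1 hl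
      obtain ⟨a, r, rfl, h1, h2⟩ := List.cons_sublist_iff.1 this
      obtain ⟨a₁, a₂, rfl⟩ := List.append_of_mem h1
      obtain ⟨m, b, rfl⟩ := List.append_of_mem (List.singleton_sublist.1 h2)
      exact ⟨a₁, a₂ ++ m, b, by simp⟩
    obtain ⟨h1, h2⟩ := path_letter.1 hu
    exact h _ h1.reach ⟨l :: m, by simp, rfl, (path_letter.1 h2).1⟩
  have := Fintype.ofFinite P.L
  simpa [Nat.card_eq_fintype_card] using hn.length_le_card

end Typed

/-- typed presentations with a base word from a source to a sink -/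
structure St (V : Type) (q₀ q₁ : V) where
  P : Pres
  T : Typed P V
  w : List P.L
  hw : T.Path q₀ w q₁
  h₀ : ∀ l, T.tgt l ≠ q₀
  h₁ : ∀ l, T.src l ≠ q₁

namespace St

open Pres

variable {V : Type} {q₀ q₁ : V} (S : St V q₀ q₁)

def Fin : Prop := Finite S.P.L ∧ Finite S.P.C

/-- every letter occurs in a word equivalent to the base word -/
def AllRel : Prop := ∀ l, ∃ α γ, Sim S.w (α ++ l :: γ)

def RNon (N : V → Prop) : Prop :=
  ∀ q, N q → ∀ γ γ', S.T.Path q γ q₁ → S.T.Path q γ' q₁ → Sim γ γ'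

def LNon (N : V → Prop) : Prop :=
  ∀ q, N q → ∀ α α', S.T.Path q₀ α q → S.T.Path q₀ α' q → Sim α α'

def RN : Prop := S.RNon fun q => ∃ q', S.T.Cyc q' ∧ S.T.Reach q' q

def LN : Prop := S.LNon fun q => ∃ q', S.T.Cyc q' ∧ S.T.Reach q q'

noncomputable def mu : ℕ := {q | S.T.Cyc q}.ncard

abbrev G : Type := D S.w

variable {S}

theorem RNon.mono {N N' : V → Prop} (h : S.RNon N) (h' : ∀ q, N' q → N q) : S.RNon N' :=
  fun q hq => h q (h' q hq)

theorem LNon.mono {N N' : V → Prop} (h : S.LNon N) (h' : ∀ q, N' q → N q) : S.LNon N' :=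
  fun q hq => h q (h' q hq)

theorem path_to_zero {q : V} {u : List S.P.L} (h : S.T.Path q u q₀) : u = [] := by
  by_contra hu
  obtain ⟨l, -, hl⟩ := h.exists_tgt hu
  exact S.h₀ l hl

theorem path_from_one {q : V} {u : List S.P.L} (h : S.T.Path q₁ u q) : u = [] := by
  cases u with
  | nil => rfl
  | cons l u => exact absurd h.1 (S.h₁ l)

theorem not_cyc_zero : ¬ S.T.Cyc q₀ := fun ⟨_, hu, h⟩ => hu (path_to_zero h)
theorem not_cyc_one : ¬ S.T.Cyc q₁ := fun ⟨_, hu, h⟩ => hu (path_from_one h)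

theorem AllRel.letter (h : S.AllRel) (l : S.P.L) : ∃ α γ, Sim S.w (α ++ l :: γ) ∧
    S.T.Path q₀ α (S.T.src l) ∧ S.T.Path (S.T.tgt l) γ q₁ := by
  obtain ⟨α, γ, h⟩ := h l
  exact ⟨α, γ, h, Typed.path_letter.1 (S.hw.sim h)⟩

/-- a cyclic vertex lies on a word equivalent to the base word -/
theorem AllRel.cyc (h : S.AllRel) {q : V} (hq : S.T.Cyc q) : ∃ α γ, Sim S.w (α ++ γ) ∧
    S.T.Path q₀ α q ∧ S.T.Path q γ q₁ := by
  obtain ⟨l, rfl⟩ := hq.exists_src
  obtain ⟨α, γ, h1, h2, h3⟩ := h.letter l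
  exact ⟨α, l :: γ, h1, h2, rfl, h3⟩

end St

end Pool.Agent.MP_1e5511_al
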